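import Pool.Agent.V11191.Span.Prob2

/-!
# Almost every Brownian path is good; the final theorem
-/

open Set MeasureTheory Filter Topology ProbabilityTheory
open scoped NNReal ENNReal

namespace Pool.Agent.V11191.Span

variable {Ω : Type*} [mΩ : MeasurableSpace Ω] {P : Measure Ω}

lemma sInf_image_shift {w : ℝ → ℝ} (hw : Continuous w) {a b : ℝ} (hab : a ≤ b) (l : ℝ)
    {f : ℝ → ℝ} {r : ℝ} (hf : ∀ t ∈ Icc a b, f t = r) :
    sInf ((fun t => w t + l * f t) '' Icc a b) = sInf (w '' Icc a b) + l * r := by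
  obtain ⟨z, hz, hmin⟩ := isCompact_Icc.exists_isMinOn (nonempty_Icc.2 hab)
    (hw.continuousOn (s := Icc a b))
  have h1 : sInf (w '' Icc a b) = w z :=
    IsLeast.csInf_eq ⟨⟨z, hz, rfl⟩, by rintro _ ⟨r, hr, rfl⟩; exact hmin hr⟩
  rw [h1]
  refine IsLeast.csInf_eq ⟨⟨z, hz, by simp only; rw [hf z hz]⟩, ?_⟩
  rintro _ ⟨t, ht, rfl⟩
  simp only
  rw [hf t ht]
  have : w z ≤ w t := hmin ht
  linarith

lemma g1_ae {V : ℝ≥0 → Ω → ℝ} (hm : ∀ t, Measurable (V t)) (hc : ∀ ω, Continuous (V · ω))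
    (hB : IsPreBrownianReal V P) : ∀ᵐ ω ∂P, G1 (pth V ω) := by
  unfold G1
  rw [ae_all_iff]; intro a
  rw [ae_all_iff]; intro b
  rw [ae_all_iff]; intro c
  rw [ae_all_iff]; intro d
  by_cases h : 0 ≤ a ∧ a ≤ b ∧ b < c ∧ c ≤ d ∧ d ≤ 1
  swap
  · exact Eventually.of_forall fun ω h1 h2 h3 h4 h5 => absurd ⟨h1, h2, h3, h4, h5⟩ h
  obtain ⟨ha, hab, hbc, hcd, hd⟩ := h
  have ha' : (0:ℝ) ≤ a := by exact_mod_cast ha
  have hab' : (a:ℝ) ≤ b := by exact_mod_cast hab
  have hbc' : (b:ℝ) < c := by exact_mod_cast hbc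
  have hcd' : (c:ℝ) ≤ d := by exact_mod_cast hcd
  obtain ⟨B', hB'⟩ : ∃ B' : ℝ≥0, (B' : ℝ) = b := ⟨Real.toNNReal b, Real.coe_toNNReal _ (ha'.trans hab')⟩
  obtain ⟨C', hC'⟩ : ∃ C' : ℝ≥0, (C' : ℝ) = c :=
    ⟨Real.toNNReal c, Real.coe_toNNReal _ ((ha'.trans hab').trans hbc'.le)⟩
  obtain ⟨s, g, hsg⟩ := (Rep.rampbc B' C' 1).sh
  have hval : ∀ t : ℝ, sh s g t.toNNReal = min (c:ℝ) (max t 0) - min (b:ℝ) (max t 0) := by
    intro t
    rw [← hsg]
    simp only [one_mul, NNReal.coe_min, Real.coe_toNNReal', hB', hC']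
  have key : P {ω | sInf (pth V ω '' Icc (a:ℝ) b) = sInf (pth V ω '' Icc (c:ℝ) d)} = 0 := by
    refine qi (A := fun w => sInf (w '' Icc (a:ℝ) b) = sInf (w '' Icc (c:ℝ) d))
      hm hc hB s g ⟨C', ?_⟩ ?_ ?_
    · rw [← hsg]
      simp only [NNReal.coe_min, hB', hC', min_self, one_mul]
      rw [min_eq_left hbc'.le]; intro h0; linarith
    · intro Ω' _ X hX
      exact measurableSet_eq_fun (meas_min hX hab') (meas_min hX hcd')
    · intro w hw
      have h1 : ∀ t ∈ Icc (a:ℝ) b, sh s g t.toNNReal = 0 := by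
        intro t ht
        rw [hval, max_eq_left (ha'.trans ht.1), min_eq_right (ht.2.trans hbc'.le),
          min_eq_right ht.2, sub_self]
      have h2 : ∀ t ∈ Icc (c:ℝ) d, sh s g t.toNNReal = c - b := by
        intro t ht
        have ht0 : 0 ≤ t := by linarith [ht.1]
        rw [hval, max_eq_left ht0, min_eq_left ht.1, min_eq_left (hbc'.le.trans ht.1)]
      have h3 : {l : ℝ | sInf ((fun t => w t + l * sh s g t.toNNReal) '' Icc (a:ℝ) b) =
          sInf ((fun t => w t + l * sh s g t.toNNReal) '' Icc (c:ℝ) d)} ⊆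
          {(sInf (w '' Icc (a:ℝ) b) - sInf (w '' Icc (c:ℝ) d)) / (c - b)} := by
        intro l hl
        simp only [mem_ofPred_eq] at hl
        rw [sInf_image_shift hw hab' l h1, sInf_image_shift hw hcd' l h2] at hl
        rw [mem_singleton_iff, eq_div_iff (by linarith)]
        linarith
      exact measure_mono_null h3 (by simp)
  have h4 : ∀ᵐ ω ∂P, ¬ (sInf (pth V ω '' Icc (a:ℝ) b) = sInf (pth V ω '' Icc (c:ℝ) d)) := by
    rw [ae_iff]; simpa using key
  filter_upwards [h4] with ω hω _ _ _ _ _ using hω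

lemma gauss_half {v : ℝ≥0} (hv : v ≠ 0) : gaussianReal 0 v (Iic 0) = 1/2 := by
  have h1 : gaussianReal 0 v (Iic 0) = gaussianReal 0 v (Ici 0) := by
    have h2 := gaussianReal_map_neg (μ := 0) (v := v)
    rw [neg_zero] at h2
    conv_lhs => rw [← h2]
    rw [Measure.map_apply (by fun_prop) measurableSet_Iic]
    congr 1
    ext x; simp
  have h3 : gaussianReal 0 v (Ici 0) = gaussianReal 0 v (Ioi 0) := by
    have hac := gaussianReal_absolutelyContinuous 0 hv
    have h0 : gaussianReal 0 v {(0:ℝ)} = 0 := hac (by simp)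
    refine le_antisymm ?_ (measure_mono Ioi_subset_Ici_self)
    calc gaussianReal 0 v (Ici 0) ≤ gaussianReal 0 v (Ioi 0 ∪ {0}) := by
          refine measure_mono fun x hx => ?_
          rcases (mem_Ici.1 hx).eq_or_lt with h | h
          · right; exact h.symm
          · left; exact h
      _ ≤ gaussianReal 0 v (Ioi 0) + gaussianReal 0 v {(0:ℝ)} := measure_union_le _ _
      _ = _ := by rw [h0, add_zero]
  have h4 : gaussianReal 0 v (Iic 0) + gaussianReal 0 v (Ioi 0) = 1 := by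
    rw [← measure_union (by
      rw [Set.disjoint_left]; intro x h1 h2; exact absurd (mem_Ioi.1 h2) (not_lt.2 (mem_Iic.1 h1)))
      measurableSet_Ioi, Iic_union_Ioi, measure_univ]
  rw [← h3, ← h1] at h4
  rw [← two_mul] at h4
  rw [ENNReal.eq_div_iff two_ne_zero ENNReal.ofNat_ne_top]
  exact h4

lemma g2_ae {V : ℝ≥0 → Ω → ℝ} (hm : ∀ t, Measurable (V t))
    (hB : IsPreBrownianReal V P) : ∀ᵐ ω ∂P, G2 (pth V ω) := by
  unfold G2
  rw [ae_all_iff]; intro a
  rw [ae_all_iff]; intro b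
  by_cases h : 0 ≤ a ∧ a < b ∧ b ≤ 1
  swap
  · exact Eventually.of_forall fun ω h1 h2 h3 => absurd ⟨h1, h2, h3⟩ h
  obtain ⟨ha, hab, hb⟩ := h
  have ha' : (0:ℝ) ≤ a := by exact_mod_cast ha
  have hab' : (a:ℝ) < b := by exact_mod_cast hab
  have key : ∀ n : ℕ, 0 < n → P {ω | ¬ ∃ x y : ℝ, (a:ℝ) ≤ x ∧ x < y ∧ y ≤ b ∧ pth V ω x < pth V ω y}
      ≤ (1/2)^n := by
    intro n hn
    have hn' : (0:ℝ) < n := by exact_mod_cast hn
    obtain ⟨A', hA'⟩ : ∃ A' : ℝ≥0, (A' : ℝ) = a := ⟨Real.toNNReal a, Real.coe_toNNReal _ ha'⟩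
    obtain ⟨D', hD'⟩ : ∃ D' : ℝ≥0, (D' : ℝ) = (b - a)/n :=
      ⟨Real.toNNReal ((b - a)/n), Real.coe_toNNReal _ (div_nonneg (by linarith) hn'.le)⟩
    have hD0 : 0 < D' := by
      rw [← NNReal.coe_pos, hD']
      exact div_pos (by linarith) hn'
    set t : Fin (n+1) → ℝ≥0 := fun k => A' + (k:ℕ) * D' with ht
    have hmono : Monotone t := by
      intro i j hij
      simp only [ht]
      gcongr
      exact hij
    have hind := hB.hasIndepIncrements n t hmono
    have hlaw : ∀ i : Fin n, P ((fun ω => V (t i.succ) ω - V (t i.castSucc) ω) ⁻¹' Iic 0) = 1/2 := by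
      intro i
      have h1 := hB.hasLaw_sub (t i.succ) (t i.castSucc)
      have h2 : nndist (t i.succ).1 (t i.castSucc).1 = D' := by
        rw [← NNReal.coe_inj, coe_nndist, Real.dist_eq]
        change |((t i.succ : ℝ≥0) : ℝ) - ((t i.castSucc : ℝ≥0) : ℝ)| = (D' : ℝ)
        have e : ((t i.succ : ℝ≥0) : ℝ) = ((t i.castSucc : ℝ≥0) : ℝ) + D' := by
          simp only [ht, Fin.val_succ, Fin.val_castSucc]
          push_cast; ring
        rw [e, add_sub_cancel_left, abs_of_nonneg D'.coe_nonneg]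
      rw [h2] at h1
      have h3 : P ((fun ω => V (t i.succ) ω - V (t i.castSucc) ω) ⁻¹' Iic 0) =
          gaussianReal 0 D' (Iic 0) := by
        rw [← h1.map_eq, Measure.map_apply ((hm _).sub (hm _)) measurableSet_Iic]
        rfl
      rw [h3, gauss_half hD0.ne']
    have hprod : P (⋂ i ∈ (Finset.univ : Finset (Fin n)),
        (fun ω => V (t i.succ) ω - V (t i.castSucc) ω) ⁻¹' Iic 0) = (1/2)^n := by
      rw [hind.measure_inter_preimage_eq_mul Finset.univ (fun i _ => measurableSet_Iic),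
        Finset.prod_congr rfl (fun i _ => hlaw i), Finset.prod_const, Finset.card_univ,
        Fintype.card_fin]
    rw [← hprod]
    refine measure_mono fun ω hω => ?_
    simp only [mem_ofPred_eq] at hω
    push Not at hω
    simp only [Finset.mem_univ, iInter_true, mem_iInter, mem_preimage, mem_Iic, sub_nonpos]
    intro i
    have hcoe : ∀ k : ℕ, ((A' + (k:ℝ≥0) * D' : ℝ≥0) : ℝ) = a + k * ((b - a)/n) := by
      intro k; push_cast; rw [hA', hD']
    have e1 : pth V ω (a + (i:ℕ) * ((b - a)/n)) = V (t i.castSucc) ω := by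
      unfold pth; rw [← hcoe, Real.toNNReal_coe]; rfl
    have e2 : pth V ω (a + ((i:ℕ)+1 : ℕ) * ((b - a)/n)) = V (t i.succ) ω := by
      unfold pth; rw [← hcoe, Real.toNNReal_coe]; rfl
    rw [← e1, ← e2]
    have hi : ((i:ℕ):ℝ) + 1 ≤ n := by exact_mod_cast i.2
    have hpos : 0 < (b - a : ℝ)/n := div_pos (by linarith) hn'
    refine hω _ _ ?_ ?_ ?_
    · have : (0:ℝ) ≤ (i:ℕ) * ((b - a)/n) := by positivity
      linarith
    · push_cast; nlinarith
    · push_cast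
      have : (((i:ℕ):ℝ) + 1) * ((b - a)/n) ≤ n * ((b-a)/n) := by gcongr
      rw [mul_div_cancel₀ _ hn'.ne'] at this
      linarith
  have hzero : P {ω | ¬ ∃ x y : ℝ, (a:ℝ) ≤ x ∧ x < y ∧ y ≤ b ∧ pth V ω x < pth V ω y} = 0 := by
    have hlim : Tendsto (fun n : ℕ => (1/2 : ℝ≥0∞)^(n+1)) atTop (𝓝 0) := by
      have := ENNReal.tendsto_pow_atTop_nhds_zero_of_lt_one (r := (1/2 : ℝ≥0∞)) (by simp)
      exact this.comp (tendsto_add_atTop_nat 1)
    refine le_antisymm (ge_of_tendsto hlim (Eventually.of_forall fun n => key (n+1) n.succ_pos)) bot_le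
  have h4 : ∀ᵐ ω ∂P, ∃ x y : ℝ, (a:ℝ) ≤ x ∧ x < y ∧ y ≤ b ∧ pth V ω x < pth V ω y := by
    rw [ae_iff]; exact hzero
  filter_upwards [h4] with ω hω _ _ _ using hω

lemma good_ae {V : ℝ≥0 → Ω → ℝ} (hm : ∀ t, Measurable (V t)) (hc : ∀ ω, Continuous (V · ω))
    (hB : IsPreBrownianReal V P) : ∀ᵐ ω ∂P, Good (pth V ω) := by
  have hm' : ∀ t, Measurable ((-V) t) := fun t => (hm t).neg
  have hc' : ∀ ω, Continuous ((-V) · ω) := fun ω => (hc ω).neg
  filter_upwards [g1_ae hm hc hB, g1_ae hm' hc' hB.neg, g2_ae hm hB, g2_ae hm' hB.neg]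
    with ω h1 h2 h3 h4
  exact ⟨(pp_pth hm hc).cont ω, h1, h2, h3, h4⟩

/-- a good modification -/
lemma exists_mod {B : ℝ≥0 → Ω → ℝ} (hB : IsBrownianReal B P) :
    ∃ V : ℝ≥0 → Ω → ℝ, (∀ t, Measurable (V t)) ∧ (∀ ω, Continuous (V · ω)) ∧
      ∀ᵐ ω ∂P, ∀ t, V t ω = B t ω := by
  classical
  set d := TopologicalSpace.denseSeq ℝ≥0 with hd
  set B' : ℕ → Ω → ℝ := fun n => (hB.aemeasurable (d n)).mk (B (d n)) with hB'
  have hB'm : ∀ n, Measurable (B' n) := fun n => (hB.aemeasurable (d n)).measurable_mk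
  have hae : ∀ᵐ ω ∂P, Continuous (B · ω) ∧ ∀ n, B (d n) ω = B' n ω := by
    have h2 : ∀ᵐ ω ∂P, ∀ n, B (d n) ω = B' n ω := by
      rw [ae_all_iff]; exact fun n => (hB.aemeasurable (d n)).ae_eq_mk
    filter_upwards [hB.cont, h2] with ω h1 h2 using ⟨h1, h2⟩
  set N := toMeasurable P {ω | ¬ (Continuous (B · ω) ∧ ∀ n, B (d n) ω = B' n ω)} with hN
  have hN0 : P N = 0 := by
    rw [hN, measure_toMeasurable]; exact hae
  have hNm : MeasurableSet N := measurableSet_toMeasurable _ _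
  have hgood : ∀ ω, ω ∉ N → Continuous (B · ω) ∧ ∀ n, B (d n) ω = B' n ω := by
    intro ω hω
    by_contra hcon
    exact hω (subset_toMeasurable _ _ hcon)
  refine ⟨fun t ω => if ω ∈ N then 0 else B t ω, ?_, ?_, ?_⟩
  · intro t
    have hmem : t ∈ closure (range d) := by
      rw [(TopologicalSpace.denseRange_denseSeq ℝ≥0).closure_range]; exact mem_univ t
    obtain ⟨x, hx1, hx2⟩ := mem_closure_iff_seq_limit.1 hmem
    choose k hk using hx1
    refine measurable_of_tendsto_metrizable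
      (f := fun n ω => if ω ∈ N then 0 else B' (k n) ω) ?_ ?_
    · intro n
      exact Measurable.ite hNm measurable_const (hB'm _)
    · rw [tendsto_pi_nhds]
      intro ω
      by_cases h : ω ∈ N
      · simp [h]
      · simp only [h, if_false]
        obtain ⟨h1, h2⟩ := hgood ω h
        have h3 : ∀ n, B' (k n) ω = B (x n) ω := by
          intro n; rw [← h2, hk]
        simp_rw [h3]
        exact (h1.tendsto t).comp hx2
  · intro ω
    by_cases h : ω ∈ N
    · simp only [h, if_true]; exact continuous_const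
    · simp only [h, if_false]; exact (hgood ω h).1
  · have : ∀ᵐ ω ∂P, ω ∉ N := measure_eq_zero_iff_ae_notMem.1 hN0
    filter_upwards [this] with ω hω t
    simp [hω]

lemma Sp_local {w v : ℝ → ℝ} (h : ∀ t, 0 ≤ t → w t = v t) : Sp w = Sp v := by
  ext u
  unfold Sp
  simp only [mem_ofPred_eq]
  constructor
  · rintro ⟨s, t, h1, h2, h3, h4, h5⟩
    exact ⟨s, t, h1, h2, h3, by rw [← h s h1, ← h t (h1.trans h2)]; exact h4, h5⟩
  · rintro ⟨s, t, h1, h2, h3, h4, h5⟩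
    exact ⟨s, t, h1, h2, h3, by rw [h s h1, h t (h1.trans h2)]; exact h4, h5⟩

lemma Exc_local {w v : ℝ → ℝ} (h : ∀ t, 0 ≤ t → w t = v t) : Exc w = Exc v := by
  have key : ∀ {w v : ℝ → ℝ}, (∀ t, 0 ≤ t → w t = v t) → Exc w ⊆ Exc v := by
    rintro w v h l ⟨p, q, h1, h2, h3, h4, h5, rfl⟩
    have hq := h1.trans h2.le
    refine ⟨p, q, h1, h2, h3, by rw [← h p h1, ← h q hq]; exact h4, fun u hu1 hu2 => ?_, rfl⟩
    rw [← h u (h1.trans hu1.le), ← h p h1]
    exact h5 u hu1 hu2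
  exact Subset.antisymm (key h) (key fun t ht => (h t ht).symm)

lemma Good.noninj {w : ℝ → ℝ} (h : Good w) : ∃ p q : ℝ, 0 ≤ p ∧ p < q ∧ q ≤ 1 ∧ w p = w q := by
  by_contra hcon
  push Not at hcon
  have hinj : InjOn w (Icc 0 1) := by
    intro x hx y hy hxy
    by_contra hne
    rcases lt_or_gt_of_ne hne with h1 | h1
    · exact hcon x y hx.1 h1 hy.2 hxy
    · exact hcon y x hy.1 h1 hx.2 hxy.symm
  obtain ⟨x1, y1, a1, a2, a3, a4⟩ := h.g2 0 1 le_rfl one_pos le_rfl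
  obtain ⟨x2, y2, b1, b2, b3, b4⟩ := h.g2' 0 1 le_rfl one_pos le_rfl
  simp only [Rat.cast_zero, Rat.cast_one] at a1 a3 b1 b3
  rcases h.cont.continuousOn.strictMonoOn_of_injOn_Icc' zero_le_one hinj with h1 | h1
  · have := h1 ⟨b1, by linarith⟩ ⟨by linarith, b3⟩ b2
    simp only [neg_lt_neg_iff] at b4
    linarith
  · have := h1 ⟨a1, by linarith⟩ ⟨by linarith, a3⟩ a2
    linarith

/-- **The three statistics are random variables with diffuse laws.** -/
theorem main {B : ℝ≥0 → Ω → ℝ} (hB : IsBrownianReal B P) :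
    (AEMeasurable (fun ω => S1 (pth B ω)) P ∧ ∀ c, P {ω | S1 (pth B ω) = c} = 0) ∧
    (AEMeasurable (fun ω => T1 (pth B ω)) P ∧ ∀ c, P {ω | T1 (pth B ω) = c} = 0) ∧
    (AEMeasurable (fun ω => R1 (pth B ω)) P ∧ ∀ c, P {ω | R1 (pth B ω) = c} = 0) := by
  obtain ⟨V, hm, hc, hV⟩ := exists_mod hB
  have hVB : IsPreBrownianReal V P := by
    refine hB.toIsPreBrownianReal.congr fun t => ?_
    filter_upwards [hV] with ω hω using (hω t).symm
  have hgood := good_ae hm hc hVB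
  have hpp := pp_pth hm hc
  have hpth : ∀ᵐ ω ∂P, pth V ω = pth B ω := by
    filter_upwards [hV] with ω hω
    funext t; exact hω _
  have trans : ∀ Φ : (ℝ → ℝ) → ℝ, Measurable (fun ω => Φ (pth V ω)) →
      (∀ c, P {ω | Φ (pth V ω) = c} = 0) →
      AEMeasurable (fun ω => Φ (pth B ω)) P ∧ ∀ c, P {ω | Φ (pth B ω) = c} = 0 := by
    intro Φ h1 h2
    refine ⟨⟨_, h1, ?_⟩, fun c => ?_⟩
    · filter_upwards [hpth] with ω hω
      rw [hω]
    · have h3 : ∀ᵐ ω ∂P, ¬ Φ (pth V ω) = c := by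
        rw [ae_iff]; simpa using h2 c
      have h4 : ∀ᵐ ω ∂P, ¬ Φ (pth B ω) = c := by
        filter_upwards [h3, hpth] with ω h5 h6
        rw [← h6]; exact h5
      rw [ae_iff] at h4
      simpa using h4
  refine ⟨trans S1 (meas_S1 hpp) ?_, trans T1 (meas_T1 hpp) ?_, trans R1 (meas_R1 hpp) ?_⟩
  · intro c
    refine diffuse hm hc hVB hgood (Φ := S1) (fun Ω' _ X hX => meas_S1 hX) ?_ ?_ c
    · intro w v h; unfold S1; rw [Sp_local h]
    · intro w hw
      obtain ⟨n, a, hn, l0, hl0, h⟩ := S_push hw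
      exact ⟨n, a, hn, l0, hl0, fun l h1 h2 => (h l h1 h2).2.ne⟩
  · intro c
    refine diffuse hm hc hVB hgood (Φ := T1) (fun Ω' _ X hX => meas_T1 hX) ?_ ?_ c
    · intro w v h; unfold T1; rw [Sp_local h]
    · intro w hw
      obtain ⟨n, a, hn, l0, hl0, h⟩ := S_push hw
      exact ⟨n, a, hn, l0, hl0, fun l h1 h2 => (h l h1 h2).1.ne⟩
  · intro c
    refine diffuse hm hc hVB hgood (Φ := R1) (fun Ω' _ X hX => meas_R1 hX) ?_ ?_ c
    · intro w v h; unfold R1; rw [Exc_local h]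
    · intro w hw
      obtain ⟨n, k, hn, hk, a, l0, hl0, h⟩ := R_push hw.cont hw.g1 hw.g1' hw.noninj
      refine ⟨n, Finsupp.single k a, hn, l0, hl0, fun l h1 h2 => ?_⟩
      have h3 := h l h1 h2
      simp_rw [ff_single hk]
      exact h3.ne'

end Pool.Agent.V11191.Span
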