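import Mathlib

/-!
# Span set statistics of a path: deterministic definitions and first lemmas
-/

open Set MeasureTheory Filter Topology

namespace Pool.Agent.V11191.Span

/-- The span set of the path `w` on `[0,1]`. -/
def Sp (w : ℝ → ℝ) : Set ℝ :=
  {u | ∃ s t : ℝ, 0 ≤ s ∧ s ≤ t ∧ t ≤ 1 ∧ w s = w t ∧ u = t - s}

/-- Lebesgue measure of the span set. -/
noncomputable def S1 (w : ℝ → ℝ) : ℝ := (volume (Sp w)).toReal

/-- The first positive time which is not in the span set. -/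
noncomputable def T1 (w : ℝ → ℝ) : ℝ := sInf {t : ℝ | 0 < t ∧ t ∉ Sp w}

/-- Lengths of complete excursions from all levels up to time `1`. -/
def Exc (w : ℝ → ℝ) : Set ℝ :=
  {l | ∃ p q : ℝ, 0 ≤ p ∧ p < q ∧ q ≤ 1 ∧ w p = w q ∧
    (∀ u, p < u → u < q → w u ≠ w p) ∧ l = q - p}

/-- Length of the longest complete excursion. -/
noncomputable def R1 (w : ℝ → ℝ) : ℝ := sSup (Exc w)

/-- minima over disjoint rational intervals are different -/
def G1 (w : ℝ → ℝ) : Prop := ∀ a b c d : ℚ, 0 ≤ a → a ≤ b → b < c → c ≤ d → d ≤ 1 →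
   sInf (w '' Icc (a:ℝ) b) ≠ sInf (w '' Icc (c:ℝ) d)

/-- not nonincreasing on any rational interval -/
def G2 (w : ℝ → ℝ) : Prop := ∀ a b : ℚ, 0 ≤ a → a < b → b ≤ 1 →
  ∃ x y : ℝ, a ≤ x ∧ x < y ∧ y ≤ b ∧ w x < w y

/-- the ramp from `0` to `1` on `[k/n, (k+1)/n]` -/
noncomputable def ramp (n k : ℕ) (t : ℝ) : ℝ :=
  n * (min (((k:ℝ)+1)/n) t - min ((k:ℝ)/n) t)

/-- the piecewise linear function with increments `c k` -/
noncomputable def ff (n : ℕ) (c : ℕ →₀ ℚ) (t : ℝ) : ℝ :=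
  ∑ k ∈ Finset.range n, (c k : ℝ) * ramp n k t

lemma ramp_left {n k : ℕ} (hn : 0 < n) {t : ℝ} (ht : t ≤ (k:ℝ)/n) : ramp n k t = 0 := by
  have hn' : (0:ℝ) < n := by exact_mod_cast hn
  have h2 : (k:ℝ)/n ≤ ((k:ℝ)+1)/n := by gcongr; linarith
  unfold ramp
  rw [min_eq_right ht, min_eq_right (ht.trans h2)]; ring

lemma ramp_right {n k : ℕ} (hn : 0 < n) {t : ℝ} (ht : ((k:ℝ)+1)/n ≤ t) : ramp n k t = 1 := by
  have hn' : (0:ℝ) < n := by exact_mod_cast hn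
  have h2 : (k:ℝ)/n ≤ ((k:ℝ)+1)/n := by gcongr; linarith
  unfold ramp
  rw [min_eq_left ht, min_eq_left (h2.trans ht)]; field_simp; ring

lemma ramp_nonneg {n k : ℕ} (hn : 0 < n) (t : ℝ) : 0 ≤ ramp n k t := by
  have hn' : (0:ℝ) < n := by exact_mod_cast hn
  have h2 : (k:ℝ)/n ≤ ((k:ℝ)+1)/n := by gcongr; linarith
  unfold ramp
  refine mul_nonneg hn'.le ?_
  have := min_le_min_right t h2
  linarith

lemma ramp_le_one {n k : ℕ} (hn : 0 < n) (t : ℝ) : ramp n k t ≤ 1 := by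
  have hn' : (0:ℝ) < n := by exact_mod_cast hn
  have h2 : (k:ℝ)/n ≤ ((k:ℝ)+1)/n := by gcongr; linarith
  unfold ramp
  have h3 : ((k:ℝ)+1)/n = (k:ℝ)/n + 1/n := by ring
  have h4 : min (((k:ℝ)+1)/n) t ≤ min ((k:ℝ)/n) t + 1/n := by
    rw [h3]
    rcases le_total ((k:ℝ)/n) t with h | h
    · rw [min_eq_left h]; exact min_le_left _ _
    · rw [min_eq_right h]
      refine (min_le_right _ _).trans ?_
      have : (0:ℝ) ≤ 1/n := by positivity
      linarith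
  calc (n:ℝ) * (min (((k:ℝ)+1)/n) t - min ((k:ℝ)/n) t) ≤ n * (1/n) := by
        gcongr; linarith
    _ = 1 := by field_simp

lemma ramp_cont (n k : ℕ) : Continuous (ramp n k) := by
  unfold ramp; fun_prop

lemma ff_cont (n : ℕ) (c : ℕ →₀ ℚ) : Continuous (ff n c) := by
  unfold ff
  refine continuous_finsetSum _ fun k _ => ?_
  exact continuous_const.mul (ramp_cont n k)

lemma ff_single {n k : ℕ} (hk : k < n) (a : ℚ) (t : ℝ) :
    ff n (Finsupp.single k a) t = a * ramp n k t := by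
  unfold ff
  rw [Finset.sum_eq_single k]
  · simp
  · intro j _ hj
    rw [Finsupp.single_apply, if_neg (Ne.symm hj)]; simp
  · intro h; exact absurd (Finset.mem_range.2 hk) h

/-- a grid cell inside a given open interval of `[0,1]` -/
lemma exists_cell {a b : ℝ} (ha : 0 ≤ a) (hab : a < b) (hb : b ≤ 1) :
    ∃ n k : ℕ, 0 < n ∧ k < n ∧ a < (k:ℝ)/n ∧ ((k:ℝ)+1)/n < b := by
  obtain ⟨n, hn⟩ := exists_nat_gt (2/(b-a))
  have hba : 0 < b - a := by linarith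
  have hn0 : (0:ℝ) < n := lt_trans (by positivity) hn
  have hn2 : 2 < n * (b-a) := by
    rw [div_lt_iff₀ hba] at hn; exact hn
  refine ⟨n, ⌊(n:ℝ)*a⌋₊ + 1, by exact_mod_cast hn0, ?_, ?_, ?_⟩
  · have h1 : ((⌊(n:ℝ)*a⌋₊:ℕ):ℝ) ≤ n * a := Nat.floor_le (by positivity)
    have : ((⌊(n:ℝ)*a⌋₊ + 1 : ℕ):ℝ) < n := by
      push_cast
      nlinarith
    exact_mod_cast this
  · rw [lt_div_iff₀ hn0]
    have := Nat.lt_floor_add_one ((n:ℝ)*a)
    push_cast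
    linarith
  · rw [div_lt_iff₀ hn0]
    have h1 : ((⌊(n:ℝ)*a⌋₊:ℕ):ℝ) ≤ n * a := Nat.floor_le (by positivity)
    push_cast
    nlinarith

lemma exists_rat_nhd {z ε : ℝ} (h0 : 0 ≤ z) (h1 : z ≤ 1) (hε : 0 < ε) :
    ∃ a b : ℚ, 0 ≤ a ∧ z - ε < a ∧ (a:ℝ) ≤ z ∧ z ≤ b ∧ (b:ℝ) < z + ε ∧ b ≤ 1 := by
  have ha : ∃ a : ℚ, 0 ≤ a ∧ z - ε < a ∧ (a:ℝ) ≤ z := by
    rcases h0.eq_or_lt with h | h
    · exact ⟨0, le_rfl, by rw [← h]; push_cast; linarith, by rw [← h]; simp⟩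
    · obtain ⟨a, ha1, ha2⟩ := exists_rat_btwn (show max (z-ε) 0 < z from max_lt (by linarith) h)
      refine ⟨a, ?_, (le_max_left _ _).trans_lt ha1, ha2.le⟩
      have := (le_max_right _ _).trans_lt ha1
      exact_mod_cast this.le
  have hb : ∃ b : ℚ, z ≤ b ∧ (b:ℝ) < z + ε ∧ b ≤ 1 := by
    rcases h1.eq_or_lt with h | h
    · exact ⟨1, by rw [h]; simp, by rw [h]; push_cast; linarith, le_rfl⟩
    · obtain ⟨a, ha1, ha2⟩ := exists_rat_btwn (show z < min (z+ε) 1 from lt_min (by linarith) h)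
      refine ⟨a, ha1.le, ha2.trans_le (min_le_left _ _), ?_⟩
      have := ha2.trans_le (min_le_right _ _)
      exact_mod_cast this.le
  obtain ⟨a, h1, h2, h3⟩ := ha
  obtain ⟨b, h4, h5, h6⟩ := hb
  exact ⟨a, b, h1, h2, h3, h4, h5, h6⟩

/-- two local minima (in `[0,1]`) have different values -/
lemma locmin_unique {w : ℝ → ℝ} (hG : G1 w) {z1 z2 : ℝ} (h1 : 0 ≤ z1) (h12 : z1 < z2)
    (h2 : z2 ≤ 1) {ε : ℝ} (hε : 0 < ε)
    (hl1 : ∀ r, 0 ≤ r → r ≤ 1 → |r - z1| < ε → w z1 ≤ w r)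
    (hl2 : ∀ r, 0 ≤ r → r ≤ 1 → |r - z2| < ε → w z2 ≤ w r)
    (heq : w z1 = w z2) : False := by
  set δ := min ε ((z2 - z1)/2) with hδ
  have hδ0 : 0 < δ := lt_min hε (by linarith)
  have hδε : δ ≤ ε := min_le_left _ _
  have hδ2 : δ ≤ (z2 - z1)/2 := min_le_right _ _
  obtain ⟨a, b, a0, a1, a2, b1, b2, b3⟩ := exists_rat_nhd h1 (h12.le.trans h2) hδ0
  obtain ⟨c, d, c0, c1, c2, d1, d2, d3⟩ := exists_rat_nhd (h1.trans h12.le) h2 hδ0
  have hab : a ≤ b := by exact_mod_cast a2.trans b1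
  have hcd : c ≤ d := by exact_mod_cast c2.trans d1
  have hbc : b < c := by
    have : (b:ℝ) < c := by linarith
    exact_mod_cast this
  have a0' : (0:ℝ) ≤ a := by exact_mod_cast a0
  have b3' : (b:ℝ) ≤ 1 := by exact_mod_cast b3
  have c0' : (0:ℝ) ≤ c := by exact_mod_cast c0
  have d3' : (d:ℝ) ≤ 1 := by exact_mod_cast d3
  refine hG a b c d a0 hab hbc hcd d3 ?_
  have e1 : sInf (w '' Icc (a:ℝ) b) = w z1 := by
    refine IsLeast.csInf_eq ⟨⟨z1, ⟨a2, b1⟩, rfl⟩, ?_⟩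
    rintro _ ⟨r, ⟨hr1, hr2⟩, rfl⟩
    refine hl1 r (a0'.trans hr1) (hr2.trans b3') ?_
    rw [abs_lt]; constructor <;> linarith
  have e2 : sInf (w '' Icc (c:ℝ) d) = w z2 := by
    refine IsLeast.csInf_eq ⟨⟨z2, ⟨c2, d1⟩, rfl⟩, ?_⟩
    rintro _ ⟨r, ⟨hr1, hr2⟩, rfl⟩
    refine hl2 r (c0'.trans hr1) (hr2.trans d3') ?_
    rw [abs_lt]; constructor <;> linarith
  rw [e1, e2, heq]

/-- last time before `b` with value `x` (when `w a ≤ x < w` later) -/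
lemma last_hit {w : ℝ → ℝ} (hw : Continuous w) {a b x : ℝ} (hab : a ≤ b) (ha : w a ≤ x)
    (hb : x < w b) : ∃ p, a ≤ p ∧ p < b ∧ w p = x ∧ ∀ u, p < u → u ≤ b → x < w u := by
  -- the compact set of points in [a,b] with w ≤ x
  have hK : IsCompact (Icc a b ∩ {t | w t ≤ x}) :=
    isCompact_Icc.inter_right (isClosed_le hw continuous_const)
  obtain ⟨p, ⟨⟨hp1, hp2⟩, hp3⟩, hmax⟩ := hK.exists_isGreatest ⟨a, ⟨le_rfl, hab⟩, ha⟩
  have hpb : p < b := by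
    rcases hp2.eq_or_lt with h | h
    · subst h; exact absurd hp3 (not_le.2 hb)
    · exact h
  have key : ∀ u, p < u → u ≤ b → x < w u := by
    intro u hu hub
    by_contra hcon
    have := hmax ⟨⟨hp1.trans hu.le, hub⟩, not_lt.1 hcon⟩
    linarith
  refine ⟨p, hp1, hpb, ?_, key⟩
  refine le_antisymm hp3 ?_
  have h2 : Tendsto w (𝓝[>] p) (𝓝 (w p)) := hw.continuousWithinAt
  refine ge_of_tendsto h2 ?_
  filter_upwards [Ioo_mem_nhdsGT hpb] with u hu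
  exact (key u hu.1 hu.2.le).le

lemma first_hit {w : ℝ → ℝ} (hw : Continuous w) {a b x : ℝ} (hab : a ≤ b) (ha : x < w a)
    (hb : w b ≤ x) : ∃ q, a < q ∧ q ≤ b ∧ w q = x ∧ ∀ u, a ≤ u → u < q → x < w u := by
  obtain ⟨p, h1, h2, h3, h4⟩ := last_hit (w := fun t => w (-t)) (by fun_prop)
    (a := -b) (b := -a) (x := x) (by linarith) (by simpa using hb) (by simpa using ha)
  refine ⟨-p, by linarith, by linarith, h3, fun u hu1 hu2 => ?_⟩
  have := h4 (-u) (by linarith) (by linarith)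
  simpa using this

end Pool.Agent.V11191.Span
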