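import Pool.Agent.V11191.Span.Defs

/-!
# The longest complete excursion: a good path can be pushed to a longer excursion
-/

open Set MeasureTheory Filter Topology

namespace Pool.Agent.V11191.Span

/-- complete excursions above a level -/
def Up (w : ℝ → ℝ) (p q : ℝ) : Prop :=
  0 ≤ p ∧ p < q ∧ q ≤ 1 ∧ w p = w q ∧ ∀ u, p < u → u < q → w p < w u

lemma Up.mem {w : ℝ → ℝ} {p q : ℝ} (h : Up w p q) : q - p ∈ Exc w :=
  ⟨p, q, h.1, h.2.1, h.2.2.1, h.2.2.2.1, fun u h1 h2 => (h.2.2.2.2 u h1 h2).ne', rfl⟩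

lemma exc_neg (w : ℝ → ℝ) : Exc (fun t => - w t) = Exc w := by
  ext l
  unfold Exc
  simp only [mem_ofPred_eq, neg_inj, ne_eq]

lemma exc_le {w : ℝ → ℝ} {l : ℝ} (h : l ∈ Exc w) : l ≤ 1 := by
  obtain ⟨p, q, h1, h2, h3, _, _, rfl⟩ := h
  linarith

lemma exc_bdd (w : ℝ → ℝ) : BddAbove (Exc w) := ⟨1, fun _ h => exc_le h⟩

lemma le_R1 {w : ℝ → ℝ} {l : ℝ} (h : l ∈ Exc w) : l ≤ R1 w := le_csSup (exc_bdd w) h

/-- the extremal weak excursion can be made longer -/
lemma up_push {w : ℝ → ℝ} (hw : Continuous w) (hG : G1 w) {p q : ℝ} (hp : 0 ≤ p) (hpq : p < q)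
    (hq : q ≤ 1) (he : w p = w q) (hge : ∀ u, p ≤ u → u ≤ q → w p ≤ w u)
    (hmax : ∀ p' q', Up w p' q' → q' - p' ≤ q - p) :
    ∃ n k : ℕ, 0 < n ∧ k < n ∧ ∃ a : ℚ, ∃ l0 : ℝ, 0 < l0 ∧ ∀ l, 0 < l → l < l0 →
      ∃ p' q', Up (fun t => w t + l * (a * ramp n k t)) p' q' ∧ q - p < q' - p' := by
  set x := w p with hx
  -- one of the two sides is above the level x
  have hside : (∀ r, 0 ≤ r → r ≤ q → x ≤ w r) ∨ (∀ r, p ≤ r → r ≤ 1 → x ≤ w r) := by
    by_contra hcon
    push Not at hcon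
    obtain ⟨⟨r1, a1, a2, a3⟩, ⟨r2, b1, b2, b3⟩⟩ := hcon
    have hr1 : r1 < p := by
      by_contra h
      exact absurd (hge r1 (not_lt.1 h) a2) (not_le.2 a3)
    have hr2 : q < r2 := by
      by_contra h
      exact absurd (hge r2 b1 (not_lt.1 h)) (not_le.2 b3)
    set y := max (w r1) (w r2) with hy
    have hyx : y < x := max_lt a3 b3
    obtain ⟨p', c1, c2, c3, c4⟩ := last_hit hw hr1.le (le_max_left _ _ : w r1 ≤ y)
      (show y < w p from hyx)
    obtain ⟨q', d1, d2, d3, d4⟩ := first_hit hw hr2.le (show y < w q by rw [← he]; exact hyx)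
      (le_max_right _ _ : w r2 ≤ y)
    have := hmax p' q' ⟨by linarith, by linarith, by linarith, by rw [c3, d3], ?_⟩
    · linarith
    · intro u hu1 hu2
      rw [c3]
      rcases le_or_gt u p with h | h
      · exact c4 u hu1 h
      · rcases le_or_gt q u with h' | h'
        · exact d4 u h' hu2
        · exact hyx.trans_le (hge u h.le h'.le)
  obtain ⟨n, k, hn, hk, hc1, hc2⟩ := exists_cell hp hpq hq
  refine ⟨n, k, hn, hk, ?_⟩
  have hxq : w q = x := he.symm
  rcases hside with hs | hs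
  · -- w ≥ x on [0,q]
    have huniq : ∀ z, 0 ≤ z → z < q → w z = x → z = p := by
      intro z hz0 hzq hz
      by_contra hne
      have hε : 0 < q - max z p := by
        have := max_lt hzq hpq
        linarith
      have hlz : ∀ r, 0 ≤ r → r ≤ 1 → |r - z| < q - max z p → w z ≤ w r := by
        intro r hr0 _ hr
        rw [hz]
        refine hs r hr0 ?_
        have := (abs_lt.1 hr).2
        have := le_max_left z p
        linarith
      have hlp : ∀ r, 0 ≤ r → r ≤ 1 → |r - p| < q - max z p → w p ≤ w r := by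
        intro r hr0 _ hr
        refine hs r hr0 ?_
        have := (abs_lt.1 hr).2
        have := le_max_right z p
        linarith
      rcases lt_or_gt_of_ne hne with h | h
      · exact locmin_unique hG hz0 h (hpq.le.trans hq) hε hlz hlp hz
      · exact locmin_unique hG hp h (hzq.le.trans hq) hε hlp hlz hz.symm
    have hex : ∃ r2, q < r2 ∧ r2 ≤ 1 ∧ w r2 < x := by
      by_contra hcon
      push Not at hcon
      have hall : ∀ r, 0 ≤ r → r ≤ 1 → x ≤ w r := by
        intro r h0 h1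
        rcases le_or_gt r q with h | h
        · exact hs r h0 h
        · exact hcon r h h1
      exact locmin_unique hG hp hpq hq one_pos (fun r h0 h1 _ => hall r h0 h1)
        (fun r h0 h1 _ => hxq ▸ hall r h0 h1) he
    obtain ⟨r2, e1, e2, e3⟩ := hex
    refine ⟨1, x - w r2, by linarith, fun l hl0 hl1 => ?_⟩
    set v : ℝ → ℝ := fun t => w t + l * (((1:ℚ):ℝ) * ramp n k t) with hv
    have hvc : Continuous v := by
      have := ramp_cont n k
      simp only [hv]; fun_prop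
    have hv1 : ∀ t, t ≤ (k:ℝ)/n → v t = w t := by
      intro t ht; simp [hv, ramp_left hn ht]
    have hv2 : ∀ t, ((k:ℝ)+1)/n ≤ t → v t = w t + l := by
      intro t ht; simp [hv, ramp_right hn ht]
    have hv3 : ∀ t, w t ≤ v t := by
      intro t
      have := mul_nonneg hl0.le (ramp_nonneg (k := k) hn t)
      simp only [hv, Rat.cast_one, one_mul]; linarith
    have hvp : v p = x := by rw [hv1 p hc1.le]
    have hvq : x < v q := by rw [hv2 q hc2.le, hxq]; linarith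
    have hvr : v r2 ≤ x := by rw [hv2 r2 (hc2.le.trans e1.le)]; linarith
    obtain ⟨q', f1, f2, f3, f4⟩ := first_hit hvc e1.le hvq hvr
    refine ⟨p, q', ⟨hp, by linarith, by linarith, by rw [hvp, f3], ?_⟩, by linarith⟩
    intro u hu1 hu2
    rw [hvp]
    rcases le_or_gt q u with h | h
    · exact f4 u h hu2
    · refine lt_of_lt_of_le ?_ (hv3 u)
      refine lt_of_le_of_ne (hs u (hp.trans hu1.le) h.le) ?_
      intro h3
      have := huniq u (hp.trans hu1.le) h h3.symm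
      linarith
  · -- w ≥ x on [p,1]
    have huniq : ∀ z, p < z → z ≤ 1 → w z = x → z = q := by
      intro z hz0 hzq hz
      by_contra hne
      have hε : 0 < min z q - p := by
        have := lt_min hz0 hpq
        linarith
      have hlz : ∀ r, 0 ≤ r → r ≤ 1 → |r - z| < min z q - p → w z ≤ w r := by
        intro r _ hr1 hr
        rw [hz]
        refine hs r ?_ hr1
        have := (abs_lt.1 hr).1
        have := min_le_left z q
        linarith
      have hlp : ∀ r, 0 ≤ r → r ≤ 1 → |r - q| < min z q - p → w q ≤ w r := by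
        intro r _ hr1 hr
        rw [hxq]
        refine hs r ?_ hr1
        have := (abs_lt.1 hr).1
        have := min_le_right z q
        linarith
      rcases lt_or_gt_of_ne hne with h | h
      · exact locmin_unique hG (hp.trans hz0.le) h hq hε hlz hlp (hz.trans hxq.symm)
      · exact locmin_unique hG (hp.trans hpq.le) h hzq hε hlp hlz (hxq.trans hz.symm)
    have hex : ∃ r1, 0 ≤ r1 ∧ r1 < p ∧ w r1 < x := by
      by_contra hcon
      push Not at hcon
      have hall : ∀ r, 0 ≤ r → r ≤ 1 → x ≤ w r := by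
        intro r h0 h1
        rcases le_or_gt p r with h | h
        · exact hs r h h1
        · exact hcon r h0 h
      exact locmin_unique hG hp hpq hq one_pos (fun r h0 h1 _ => hall r h0 h1)
        (fun r h0 h1 _ => hxq ▸ hall r h0 h1) he
    obtain ⟨r1, e0, e1, e3⟩ := hex
    refine ⟨-1, x - w r1, by linarith, fun l hl0 hl1 => ?_⟩
    set v : ℝ → ℝ := fun t => w t + l * (((-1:ℚ):ℝ) * ramp n k t) with hv
    have hvc : Continuous v := by
      have := ramp_cont n k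
      simp only [hv]; fun_prop
    have hv1 : ∀ t, t ≤ (k:ℝ)/n → v t = w t := by
      intro t ht; simp [hv, ramp_left hn ht]
    have hv2 : ∀ t, ((k:ℝ)+1)/n ≤ t → v t = w t - l := by
      intro t ht; simp [hv, ramp_right hn ht]; ring
    have hv3 : ∀ t, w t - l ≤ v t := by
      intro t
      have := mul_le_mul_of_nonneg_left (ramp_le_one (k := k) hn t) hl0.le
      simp only [hv, Rat.cast_neg, Rat.cast_one]; linarith
    have hvp : x - l < v p := by rw [hv1 p hc1.le, ← hx]; linarith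
    have hvq : v q = x - l := by rw [hv2 q hc2.le, hxq]
    have hvr : v r1 ≤ x - l := by rw [hv1 r1 (e1.le.trans hc1.le)]; linarith
    obtain ⟨p', f1, f2, f3, f4⟩ := last_hit hvc e1.le hvr hvp
    refine ⟨p', q, ⟨by linarith, by linarith, hq, by rw [hvq, f3], ?_⟩, by linarith⟩
    intro u hu1 hu2
    rw [f3]
    rcases le_or_gt u p with h | h
    · exact f4 u hu1 h
    · refine lt_of_lt_of_le ?_ (hv3 u)
      have : x < w u := by
        refine lt_of_le_of_ne (hs u h.le (hu2.le.trans hq)) ?_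
        intro h3
        have := huniq u h (hu2.le.trans hq) h3.symm
        linarith
      linarith


/-- weak complete excursions above a level -/
def KP (w : ℝ → ℝ) : Set (ℝ × ℝ) :=
  {z | (0 ≤ z.1 ∧ z.1 ≤ z.2 ∧ z.2 ≤ 1) ∧ w z.1 = w z.2 ∧
    ∀ θ : ℝ, 0 ≤ θ → θ ≤ 1 → w z.1 ≤ w (z.1 + θ * (z.2 - z.1))}

lemma KP_compact {w : ℝ → ℝ} (hw : Continuous w) : IsCompact (KP w) := by
  have hsub : KP w ⊆ Icc 0 1 ×ˢ Icc 0 1 := by
    rintro ⟨p, q⟩ ⟨⟨h1, h2, h3⟩, _⟩
    exact ⟨⟨h1, h2.trans h3⟩, ⟨h1.trans h2, h3⟩⟩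
  refine (isCompact_Icc.prod isCompact_Icc).of_isClosed_subset ?_ hsub
  have e : KP w = ({z : ℝ × ℝ | 0 ≤ z.1} ∩ {z | z.1 ≤ z.2} ∩ {z | z.2 ≤ 1}) ∩
      ({z | w z.1 = w z.2} ∩
        ⋂ (θ : ℝ), ⋂ (_ : 0 ≤ θ), ⋂ (_ : θ ≤ 1), {z | w z.1 ≤ w (z.1 + θ * (z.2 - z.1))}) := by
    ext z
    simp only [KP, mem_ofPred_eq, mem_inter_iff, mem_iInter]
    tauto
  rw [e]
  refine IsClosed.inter (IsClosed.inter (IsClosed.inter ?_ ?_) ?_) (IsClosed.inter ?_ ?_)
  · exact isClosed_le continuous_const continuous_fst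
  · exact isClosed_le continuous_fst continuous_snd
  · exact isClosed_le continuous_snd continuous_const
  · exact isClosed_eq (hw.comp continuous_fst) (hw.comp continuous_snd)
  · refine isClosed_iInter fun θ => isClosed_iInter fun _ => isClosed_iInter fun _ => ?_
    exact isClosed_le (by fun_prop) (by fun_prop)

lemma KP_ge {w : ℝ → ℝ} {z : ℝ × ℝ} (h : z ∈ KP w) {u : ℝ} (h1 : z.1 ≤ u) (h2 : u ≤ z.2) :
    w z.1 ≤ w u := by
  rcases (h1.trans h2).eq_or_lt with h3 | h3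
  · rw [show u = z.1 by linarith]
  · have hpos : 0 < z.2 - z.1 := by linarith
    have := h.2.2 ((u - z.1)/(z.2 - z.1)) (div_nonneg (by linarith) hpos.le)
      ((div_le_one hpos).2 (by linarith))
    rwa [div_mul_cancel₀ _ hpos.ne', add_sub_cancel] at this

lemma KP_of {w : ℝ → ℝ} {p q : ℝ} (h0 : 0 ≤ p) (hpq : p < q) (hq : q ≤ 1) (he : w p = w q)
    (h : ∀ u, p < u → u < q → w p ≤ w u) : (p, q) ∈ KP w := by
  refine ⟨⟨h0, hpq.le, hq⟩, he, fun θ t0 t1 => ?_⟩
  rcases t0.eq_or_lt with h1 | h1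
  · simp [← h1]
  rcases t1.eq_or_lt with h2 | h2
  · subst h2; simp only [one_mul, add_sub_cancel]; exact he.le
  · refine h _ ?_ ?_
    · simp only; nlinarith
    · simp only; nlinarith

lemma exc_sign {w : ℝ → ℝ} (hw : Continuous w) {p q : ℝ} 
    (h : ∀ u, p < u → u < q → w u ≠ w p) :
    (∀ u, p < u → u < q → w p ≤ w u) ∨ (∀ u, p < u → u < q → w u ≤ w p) := by
  by_contra hcon
  push Not at hcon
  obtain ⟨⟨u1, a1, a2, a3⟩, ⟨u2, b1, b2, b3⟩⟩ := hcon
  have hmem : w p ∈ uIcc (w u1) (w u2) := by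
    rw [uIcc_of_le (a3.trans b3).le]; exact ⟨a3.le, b3.le⟩
  obtain ⟨u, hu, hu2⟩ := intermediate_value_uIcc (hw.continuousOn (s := uIcc u1 u2)) hmem
  have h1 : p < u := lt_of_lt_of_le (lt_min a1 b1) hu.1
  have h2 : u < q := lt_of_le_of_lt hu.2 (max_lt a2 b2)
  exact h u h1 h2 hu2

lemma exc_KP {w : ℝ → ℝ} (hw : Continuous w) {l : ℝ} (h : l ∈ Exc w) :
    ∃ z ∈ KP w ∪ KP (fun t => - w t), l = z.2 - z.1 := by
  obtain ⟨p, q, h1, h2, h3, h4, h5, rfl⟩ := h
  rcases exc_sign hw h5 with h | h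
  · exact ⟨(p, q), Or.inl (KP_of h1 h2 h3 h4 h), rfl⟩
  · refine ⟨(p, q), Or.inr (KP_of h1 h2 h3 (by simp [h4]) fun u hu1 hu2 => ?_), rfl⟩
    exact neg_le_neg (h u hu1 hu2)

/-- a non-injective path has a complete excursion, or a weak one, of positive length -/
lemma exists_pos {w : ℝ → ℝ} (hw : Continuous w)
    (hni : ∃ p q : ℝ, 0 ≤ p ∧ p < q ∧ q ≤ 1 ∧ w p = w q) :
    ∃ z ∈ KP w ∪ KP (fun t => - w t), 0 < z.2 - z.1 := by
  obtain ⟨p, q, h1, h2, h3, h4⟩ := hni
  have key : ∀ v : ℝ → ℝ, Continuous v → v p = v q → (∃ u, p ≤ u ∧ u ≤ q ∧ v p < v u) →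
      ∃ z ∈ KP v, 0 < z.2 - z.1 := by
    rintro v hv hpq ⟨u, hu1, hu2, hu3⟩
    obtain ⟨p', a1, a2, a3, a4⟩ := last_hit hv hu1 (le_refl (v p)) hu3
    obtain ⟨q', b1, b2, b3, b4⟩ := first_hit hv hu2 hu3 (hpq ▸ le_refl (v p))
    refine ⟨(p', q'), KP_of (by linarith) (by linarith) (by linarith) (by rw [a3, b3]) ?_, ?_⟩
    · intro r hr1 hr2
      rw [a3]
      rcases le_or_gt r u with h | h
      · exact (a4 r hr1 h).le
      · exact (b4 r h.le hr2).le
    · simp only; linarith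
  by_cases hex : ∃ u, p ≤ u ∧ u ≤ q ∧ w u < w p
  · obtain ⟨u, hu1, hu2, hu3⟩ := hex
    obtain ⟨z, hz, hz2⟩ := key (fun t => - w t) hw.neg (by simp [h4])
      ⟨u, hu1, hu2, neg_lt_neg hu3⟩
    exact ⟨z, Or.inr hz, hz2⟩
  · push Not at hex
    refine ⟨(p, q), Or.inl (KP_of h1 h2 h3 h4 fun u hu1 hu2 => hex u hu1.le hu2.le), ?_⟩
    simp only; linarith

/-- **The longest excursion can be made longer.** -/
theorem R_push {w : ℝ → ℝ} (hw : Continuous w) (hG : G1 w) (hG' : G1 (fun t => - w t))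
    (hni : ∃ p q : ℝ, 0 ≤ p ∧ p < q ∧ q ≤ 1 ∧ w p = w q) :
    ∃ n k : ℕ, 0 < n ∧ k < n ∧ ∃ a : ℚ, ∃ l0 : ℝ, 0 < l0 ∧ ∀ l, 0 < l → l < l0 →
      R1 w < R1 (fun t => w t + l * (a * ramp n k t)) := by
  have hcomp : IsCompact (KP w ∪ KP (fun t => - w t)) := (KP_compact hw).union (KP_compact hw.neg)
  obtain ⟨z0, hz0, hz1⟩ := exists_pos hw hni
  obtain ⟨⟨p, q⟩, hz, hmax⟩ := hcomp.exists_isMaxOn ⟨z0, hz0⟩
    (f := fun z : ℝ × ℝ => z.2 - z.1) (by fun_prop)
  have hmax' : ∀ z ∈ KP w ∪ KP (fun t => - w t), z.2 - z.1 ≤ q - p := fun z hz => hmax hz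
  have hpq : p < q := by
    have := hmax' z0 hz0
    linarith
  have hR : R1 w ≤ q - p := by
    refine Real.sSup_le ?_ (by linarith)
    intro l hl
    obtain ⟨z, hz, rfl⟩ := exc_KP hw hl
    exact hmax' z hz
  rcases hz with hz | hz
  · obtain ⟨n, k, hn, hk, a, l0, hl0, h⟩ := up_push hw hG hz.1.1 hpq hz.1.2.2 hz.2.1
      (fun u h1 h2 => KP_ge hz h1 h2)
      (fun p' q' hup => hmax' (p', q')
        (Or.inl (KP_of hup.1 hup.2.1 hup.2.2.1 hup.2.2.2.1 fun u h1 h2 => (hup.2.2.2.2 u h1 h2).le)))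
    refine ⟨n, k, hn, hk, a, l0, hl0, fun l h1 h2 => ?_⟩
    obtain ⟨p', q', hup, hlt⟩ := h l h1 h2
    have := le_R1 hup.mem
    linarith
  · obtain ⟨n, k, hn, hk, a, l0, hl0, h⟩ := up_push hw.neg hG' hz.1.1 hpq hz.1.2.2 hz.2.1
      (fun u h1 h2 => KP_ge hz h1 h2)
      (fun p' q' hup => hmax' (p', q')
        (Or.inr (KP_of hup.1 hup.2.1 hup.2.2.1 hup.2.2.2.1 fun u h1 h2 => (hup.2.2.2.2 u h1 h2).le)))
    refine ⟨n, k, hn, hk, -a, l0, hl0, fun l h1 h2 => ?_⟩
    obtain ⟨p', q', hup, hlt⟩ := h l h1 h2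
    have h3 := le_R1 hup.mem
    have h4 : R1 (fun t => w t + l * (((-a : ℚ) : ℝ) * ramp n k t)) =
        R1 (fun t => - w t + l * ((a : ℝ) * ramp n k t)) := by
      unfold R1
      rw [← exc_neg (fun t => w t + l * (((-a : ℚ) : ℝ) * ramp n k t))]
      congr 2
      funext t
      push_cast; ring
    rw [h4]
    simp only [Pi.neg_apply] at h3 hlt
    linarith

end Pool.Agent.V11191.Span
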