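import Pool.Agent.V11191.Span.Spush
import Pool.Agent.V11191.Span.Rdet

/-!
# Measurability of the three statistics
-/

open Set MeasureTheory Filter Topology

namespace Pool.Agent.V11191.Span

/-- a measurable process with continuous paths -/
structure PP {Ω' : Type*} [MeasurableSpace Ω'] (X : ℝ → Ω' → ℝ) : Prop where
  meas : ∀ t, Measurable (X t)
  cont : ∀ ω, Continuous (fun t => X t ω)

variable {Ω' : Type*} [MeasurableSpace Ω'] {X : ℝ → Ω' → ℝ}

lemma PP.unc (h : PP X) : Measurable (fun p : ℝ × Ω' => X p.1 p.2) :=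
  measurable_uncurry_of_continuous_of_measurable h.cont h.meas

lemma PP.neg (h : PP X) : PP (fun t ω => - X t ω) :=
  ⟨fun t => (h.meas t).neg, fun ω => (h.cont ω).neg⟩

lemma PP.comp (h : PP X) {g : ℝ × Ω' → ℝ} (hg : Measurable g) :
    Measurable (fun p : ℝ × Ω' => X (g p) p.2) :=
  h.unc.comp (hg.prodMk measurable_snd)

/-- clamped rational -/
noncomputable def cl (θ : ℝ) : ℝ := max 0 (min θ 1)

lemma cl_cont : Continuous cl := by unfold cl; fun_prop

lemma cl_nonneg (θ : ℝ) : 0 ≤ cl θ := le_max_left _ _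

lemma cl_le_one (θ : ℝ) : cl θ ≤ 1 := max_le zero_le_one (min_le_right _ _)

lemma cl_of {θ : ℝ} (h0 : 0 ≤ θ) (h1 : θ ≤ 1) : cl θ = θ := by
  unfold cl; rw [min_eq_left h1, max_eq_right h0]

lemma rat_dense {P : ℝ → Prop} (hc : IsClosed {x | P x}) (h : ∀ q : ℚ, P q) (x : ℝ) : P x :=
  Rat.denseRange_cast.induction_on (p := P) x hc h

lemma pos_iff {w : ℝ → ℝ} (hw : Continuous w) {u : ℝ} (h1 : u ≤ 1) :
    Pos w u ↔ ∃ n : ℕ, ∀ q : ℚ,
      w (cl q * (1 - u)) + 1/((n:ℝ)+1) ≤ w (u + cl q * (1 - u)) := by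
  constructor
  · intro h
    obtain ⟨z, ⟨hz1, hz2⟩, hmin⟩ := isCompact_Icc.exists_isMinOn (nonempty_Icc.2 h1)
      (f := fun r => w r - w (r - u)) (by fun_prop)
    have hpos : 0 < w z - w (z - u) := sub_pos.2 (h z hz1 hz2)
    obtain ⟨n, hn⟩ := exists_nat_one_div_lt hpos
    refine ⟨n, fun q => ?_⟩
    have h2 := cl_nonneg q
    have h3 := cl_le_one q
    have h4 : w z - w (z - u) ≤ w (u + cl q * (1 - u)) - w (u + cl q * (1 - u) - u) :=
      hmin ⟨by nlinarith, by nlinarith⟩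
    rw [add_sub_cancel_left] at h4
    linarith
  · rintro ⟨n, hn⟩ r hr0 hr1
    have key : ∀ θ : ℝ, w (cl θ * (1 - u)) + 1/((n:ℝ)+1) ≤ w (u + cl θ * (1 - u)) := by
      refine rat_dense ?_ hn
      have := cl_cont
      exact isClosed_le (by fun_prop) (by fun_prop)
    have hn0 : (0:ℝ) < 1/((n:ℝ)+1) := by positivity
    rcases h1.eq_or_lt with h3 | h3
    · have h4 : r = u := by linarith
      have h5 := key 0
      rw [cl_of le_rfl zero_le_one] at h5
      simp only [zero_mul, add_zero] at h5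
      rw [h4, sub_self]; linarith
    · have hpos : 0 < 1 - u := by linarith
      have := key ((r - u)/(1 - u))
      rw [cl_of (div_nonneg (by linarith) hpos.le) ((div_le_one hpos).2 (by linarith)),
        div_mul_cancel₀ _ hpos.ne', add_sub_cancel] at this
      linarith

lemma meas_pos (h : PP X) :
    MeasurableSet {p : ℝ × Ω' | ∃ n : ℕ, ∀ q : ℚ,
      X (cl q * (1 - p.1)) p.2 + 1/((n:ℝ)+1) ≤ X (p.1 + cl q * (1 - p.1)) p.2} := by
  have e : {p : ℝ × Ω' | ∃ n : ℕ, ∀ q : ℚ,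
      X (cl q * (1 - p.1)) p.2 + 1/((n:ℝ)+1) ≤ X (p.1 + cl q * (1 - p.1)) p.2} =
      ⋃ n : ℕ, ⋂ q : ℚ, {p : ℝ × Ω' |
        X (cl q * (1 - p.1)) p.2 + 1/((n:ℝ)+1) ≤ X (p.1 + cl q * (1 - p.1)) p.2} := by
    ext p; simp only [mem_ofPred_eq, mem_iUnion, mem_iInter]
  rw [e]
  refine MeasurableSet.iUnion fun n => MeasurableSet.iInter fun q => ?_
  refine measurableSet_le ?_ ?_
  · exact (h.comp (by fun_prop)).add_const _
  · exact h.comp (by fun_prop)

lemma meas_Sp (h : PP X) : MeasurableSet {p : ℝ × Ω' | p.1 ∈ Sp (fun t => X t p.2)} := by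
  have e : {p : ℝ × Ω' | p.1 ∈ Sp (fun t => X t p.2)} =
      {p | p.1 = 0} ∪ ({p | 0 < p.1 ∧ p.1 ≤ 1} \
        ({p : ℝ × Ω' | ∃ n : ℕ, ∀ q : ℚ,
          X (cl q * (1 - p.1)) p.2 + 1/((n:ℝ)+1) ≤ X (p.1 + cl q * (1 - p.1)) p.2} ∪
        {p : ℝ × Ω' | ∃ n : ℕ, ∀ q : ℚ,
          - X (cl q * (1 - p.1)) p.2 + 1/((n:ℝ)+1) ≤ - X (p.1 + cl q * (1 - p.1)) p.2})) := by
    ext p
    simp only [mem_ofPred_eq, mem_union, Set.mem_sdiff]
    have key : ∀ (_ : 0 ≤ p.1) (_ : p.1 ≤ 1), p.1 ∉ Sp (fun t => X t p.2) ↔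
        ((∃ n : ℕ, ∀ q : ℚ,
          X (cl q * (1 - p.1)) p.2 + 1/((n:ℝ)+1) ≤ X (p.1 + cl q * (1 - p.1)) p.2) ∨
        (∃ n : ℕ, ∀ q : ℚ,
          - X (cl q * (1 - p.1)) p.2 + 1/((n:ℝ)+1) ≤ - X (p.1 + cl q * (1 - p.1)) p.2)) := by
      intro h0 h1
      rw [not_mem_Sp_iff (h.cont p.2) h0, neg_iff, pos_iff (h.cont p.2) h1,
        pos_iff (h.neg.cont p.2) h1]
    constructor
    · intro hp
      have hs := Sp_subset _ hp
      rcases hs.1.eq_or_lt with h0 | h0
      · exact Or.inl h0.symm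
      · refine Or.inr ⟨⟨h0, hs.2⟩, fun hcon => ?_⟩
        exact (key hs.1 hs.2).2 hcon hp
    · rintro (h0 | ⟨⟨h0, h1⟩, h2⟩)
      · rw [h0]; exact ⟨0, 0, le_rfl, le_rfl, zero_le_one, rfl, by ring⟩
      · by_contra hcon
        exact h2 ((key h0.le h1).1 hcon)
  rw [e]
  refine (measurableSet_eq_fun measurable_fst measurable_const).union (MeasurableSet.diff ?_ ?_)
  · exact (measurableSet_lt measurable_const measurable_fst).inter
      (measurableSet_le measurable_fst measurable_const)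
  · exact (meas_pos h).union (meas_pos h.neg)

lemma meas_S1 (h : PP X) : Measurable (fun ω => S1 (fun t => X t ω)) := by
  have := measurable_measure_prodMk_right (μ := (volume : Measure ℝ)) (meas_Sp h)
  exact this.ennreal_toReal

lemma meas_Sp_rat (h : PP X) (q : ℝ) : MeasurableSet {ω | q ∈ Sp (fun t => X t ω)} := by
  have : Measurable (fun ω : Ω' => ((q, ω) : ℝ × Ω')) := by fun_prop
  exact this (meas_Sp h)

lemma meas_T1 (h : PP X) : Measurable (fun ω => T1 (fun t => X t ω)) := by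
  refine measurable_of_Iio fun c => ?_
  have e : (fun ω => T1 (fun t => X t ω)) ⁻¹' Iio c =
      ⋃ q : ℚ, ⋃ (_ : (0:ℝ) < q ∧ (q:ℝ) < c), {ω | (q:ℝ) ∉ Sp (fun t => X t ω)} := by
    ext ω
    simp only [mem_preimage, mem_Iio, mem_iUnion, mem_ofPred_eq, exists_prop]
    set w : ℝ → ℝ := fun t => X t ω with hw
    have hwc : Continuous w := h.cont ω
    have hbdd : BddBelow {t : ℝ | 0 < t ∧ t ∉ Sp w} := ⟨0, fun t ht => ht.1.le⟩
    have hne : {t : ℝ | 0 < t ∧ t ∉ Sp w}.Nonempty :=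
      ⟨2, by norm_num, fun h2 => by have := (Sp_subset _ h2).2; norm_num at this⟩
    constructor
    · intro hlt
      obtain ⟨t, ⟨ht0, ht1⟩, ht2⟩ := exists_lt_of_csInf_lt hne hlt
      have hopen : IsOpen ((Sp w)ᶜ ∩ Ioo 0 c) := (Sp_closed hwc).isOpen_compl.inter isOpen_Ioo
      obtain ⟨ρ, hρ, hball⟩ := Metric.isOpen_iff.1 hopen t ⟨ht1, ht0, ht2⟩
      obtain ⟨q, hq1, hq2⟩ := exists_rat_btwn (show t < t + ρ by linarith)
      have := hball (show (q:ℝ) ∈ Metric.ball t ρ by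
        rw [Metric.mem_ball, Real.dist_eq, abs_lt]; constructor <;> linarith)
      exact ⟨q, ⟨this.2.1, this.2.2⟩, this.1⟩
    · rintro ⟨q, ⟨h1, h2⟩, h3⟩
      exact lt_of_le_of_lt (csInf_le hbdd ⟨h1, h3⟩) h2
  rw [e]
  refine MeasurableSet.iUnion fun q => MeasurableSet.iUnion fun _ => ?_
  exact (meas_Sp_rat h q).compl

/-- countable description of long upward excursions -/
lemma up_iff {w : ℝ → ℝ} (hw : Continuous w) {c : ℝ} (hc : 0 ≤ c) :
    (∃ p q, Up w p q ∧ c < q - p) ↔ ∃ z1 a b z2 ρ : ℚ, (0 ≤ z1 ∧ z1 ≤ a ∧ a < b ∧ b ≤ z2 ∧ z2 ≤ 1 ∧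
      c < (b:ℝ) - a) ∧ w z1 < ρ ∧ w z2 < ρ ∧ ∀ q : ℚ, ρ ≤ w (a + cl q * (b - a)) := by
  constructor
  · rintro ⟨p, q, ⟨h0, hpq, h1, he, hup⟩, hcl⟩
    set x := w p with hx
    set g := (q - p - c)/3 with hg
    have hg0 : 0 < g := by simp only [hg]; linarith
    obtain ⟨a, ha1, ha2⟩ := exists_rat_btwn (show p < p + g by linarith)
    obtain ⟨b, hb1, hb2⟩ := exists_rat_btwn (show q - g < q by linarith)
    have hab : (a:ℝ) < b := by simp only [hg] at ha2 hb1; linarith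
    obtain ⟨z, ⟨hz1, hz2⟩, hmin⟩ := isCompact_Icc.exists_isMinOn (nonempty_Icc.2 hab.le)
      (hw.continuousOn (s := Icc (a:ℝ) b))
    have hxz : x < w z := hup z (by linarith) (by linarith)
    obtain ⟨ρ, hρ1, hρ2⟩ := exists_rat_btwn hxz
    -- z1
    have hev1 : ∀ᶠ t in 𝓝 p, w t < ρ := hw.continuousAt.eventually_lt_const hρ1
    obtain ⟨δ1, hδ1, hball1⟩ := Metric.eventually_nhds_iff.1 hev1
    obtain ⟨z1, hz11, hz12⟩ := exists_rat_btwn (show p < min (p + δ1) a from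
      lt_min (by linarith) ha1)
    have hev2 : ∀ᶠ t in 𝓝 q, w t < ρ := hw.continuousAt.eventually_lt_const (by rw [← he]; exact hρ1)
    obtain ⟨δ2, hδ2, hball2⟩ := Metric.eventually_nhds_iff.1 hev2
    obtain ⟨z2, hz21, hz22⟩ := exists_rat_btwn (show max (q - δ2) b < q from
      max_lt (by linarith) hb2)
    have e1 := hz12.trans_le (min_le_left _ _)
    have e2 := hz12.trans_le (min_le_right _ _)
    have e3 := (le_max_left _ _).trans_lt hz21
    have e4 := (le_max_right _ _).trans_lt hz21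
    refine ⟨z1, a, b, z2, ρ, ⟨?_, ?_, ?_, ?_, ?_, ?_⟩, ?_, ?_, ?_⟩
    · have : (0:ℝ) ≤ z1 := by linarith
      exact_mod_cast this
    · exact_mod_cast e2.le
    · exact_mod_cast hab
    · exact_mod_cast e4.le
    · have : (z2:ℝ) ≤ 1 := by linarith
      exact_mod_cast this
    · simp only [hg] at ha2 hb1; linarith
    · exact hball1 (by rw [Real.dist_eq, abs_lt]; constructor <;> linarith)
    · exact hball2 (by rw [Real.dist_eq, abs_lt]; constructor <;> linarith)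
    · intro t
      have h2 := cl_nonneg t
      have h3 := cl_le_one t
      refine hρ2.le.trans (hmin ⟨by nlinarith, by nlinarith⟩)
  · rintro ⟨z1, a, b, z2, ρ, ⟨h1, h2, h3, h4, h5, h6⟩, h7, h8, h9⟩
    have key : ∀ θ : ℝ, (ρ:ℝ) ≤ w (a + cl θ * (b - a)) := by
      refine rat_dense ?_ h9
      have := cl_cont
      exact isClosed_le (by fun_prop) (by fun_prop)
    have h3' : (a:ℝ) < b := by exact_mod_cast h3
    have h1' : (0:ℝ) ≤ z1 := by exact_mod_cast h1
    have h2' : (z1:ℝ) ≤ a := by exact_mod_cast h2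
    have h4' : (b:ℝ) ≤ z2 := by exact_mod_cast h4
    have h5' : (z2:ℝ) ≤ 1 := by exact_mod_cast h5
    have hρ : ∀ r, (a:ℝ) ≤ r → r ≤ b → (ρ:ℝ) ≤ w r := by
      intro r hr1 hr2
      have hpos : (0:ℝ) < b - a := by linarith
      have := key ((r - a)/(b - a))
      rwa [cl_of (div_nonneg (by linarith) hpos.le) ((div_le_one hpos).2 (by linarith)),
        div_mul_cancel₀ _ hpos.ne', add_sub_cancel] at this
    obtain ⟨y, hy1, hy2⟩ := exists_between (max_lt h7 h8)
    have e1 := (le_max_left _ _).trans_lt hy1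
    have e2 := (le_max_right _ _).trans_lt hy1
    obtain ⟨p, a1, a2, a3, a4⟩ := last_hit hw h2' e1.le (hy2.trans_le (hρ a le_rfl h3'.le))
    obtain ⟨q, b1, b2, b3, b4⟩ := first_hit hw h4' (hy2.trans_le (hρ b h3'.le le_rfl)) e2.le
    refine ⟨p, q, ⟨by linarith, by linarith, by linarith, by rw [a3, b3], ?_⟩, by linarith⟩
    intro u hu1 hu2
    rw [a3]
    rcases le_or_gt u a with h | h
    · exact a4 u hu1 h
    · rcases le_or_gt (b:ℝ) u with h' | h'
      · exact b4 u h' hu2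
      · exact hy2.trans_le (hρ u h.le h'.le)

lemma meas_up (h : PP X) {c : ℝ} (hc : 0 ≤ c) :
    MeasurableSet {ω | ∃ p q, Up (fun t => X t ω) p q ∧ c < q - p} := by
  have e : {ω | ∃ p q, Up (fun t => X t ω) p q ∧ c < q - p} =
      ⋃ z1 : ℚ, ⋃ a : ℚ, ⋃ b : ℚ, ⋃ z2 : ℚ, ⋃ ρ : ℚ, ⋃ (_ : (0 ≤ z1 ∧ z1 ≤ a ∧ a < b ∧ b ≤ z2 ∧
        z2 ≤ 1 ∧ c < (b:ℝ) - a)), ({ω | X z1 ω < ρ} ∩ ({ω | X z2 ω < ρ} ∩
          ⋂ q : ℚ, {ω | (ρ:ℝ) ≤ X (a + cl q * (b - a)) ω})) := by
    ext ω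
    simp only [mem_ofPred_eq]
    rw [up_iff (h.cont ω) hc]
    simp only [mem_iUnion, mem_inter_iff, mem_ofPred_eq, mem_iInter, exists_prop]
  rw [e]
  refine MeasurableSet.iUnion fun z1 => MeasurableSet.iUnion fun a => MeasurableSet.iUnion fun b =>
    MeasurableSet.iUnion fun z2 => MeasurableSet.iUnion fun ρ => MeasurableSet.iUnion fun _ => ?_
  refine (measurableSet_lt (h.meas _) measurable_const).inter
    ((measurableSet_lt (h.meas _) measurable_const).inter (MeasurableSet.iInter fun q => ?_))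
  exact measurableSet_le measurable_const (h.meas _)

lemma R1_nonneg (w : ℝ → ℝ) : 0 ≤ R1 w := by
  refine Real.sSup_nonneg ?_
  rintro l ⟨p, q, _, h, _, _, _, rfl⟩
  linarith

lemma lt_R1_iff {w : ℝ → ℝ} (hw : Continuous w) {c : ℝ} (hc : 0 ≤ c) :
    c < R1 w ↔ (∃ p q, Up w p q ∧ c < q - p) ∨ (∃ p q, Up (fun t => - w t) p q ∧ c < q - p) := by
  constructor
  · intro h
    have hne : (Exc w).Nonempty := by
      by_contra hcon
      rw [not_nonempty_iff_eq_empty] at hcon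
      unfold R1 at h
      rw [hcon, Real.sSup_empty] at h
      linarith
    obtain ⟨l, hl, hcl⟩ := exists_lt_of_lt_csSup hne h
    obtain ⟨p, q, h1, h2, h3, h4, h5, rfl⟩ := hl
    rcases exc_sign hw h5 with h6 | h6
    · exact Or.inl ⟨p, q, ⟨h1, h2, h3, h4, fun u a b =>
        lt_of_le_of_ne (h6 u a b) (h5 u a b).symm⟩, hcl⟩
    · exact Or.inr ⟨p, q, ⟨h1, h2, h3, by simp [h4], fun u a b =>
        neg_lt_neg (lt_of_le_of_ne (h6 u a b) (h5 u a b))⟩, hcl⟩
  · rintro (⟨p, q, h, hc⟩ | ⟨p, q, h, hc⟩)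
    · exact lt_of_lt_of_le hc (le_R1 h.mem)
    · have := h.mem
      rw [exc_neg] at this
      exact lt_of_lt_of_le hc (le_R1 this)

lemma meas_R1 (h : PP X) : Measurable (fun ω => R1 (fun t => X t ω)) := by
  refine measurable_of_Ioi fun c => ?_
  rcases lt_or_ge c 0 with hc | hc
  · have e : (fun ω => R1 (fun t => X t ω)) ⁻¹' Ioi c = univ := by
      ext ω; simp only [mem_preimage, mem_Ioi, mem_univ, iff_true]
      exact lt_of_lt_of_le hc (R1_nonneg _)
    rw [e]; exact MeasurableSet.univ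
  · have e : (fun ω => R1 (fun t => X t ω)) ⁻¹' Ioi c =
        {ω | ∃ p q, Up (fun t => X t ω) p q ∧ c < q - p} ∪
        {ω | ∃ p q, Up (fun t => - X t ω) p q ∧ c < q - p} := by
      ext ω
      simp only [mem_preimage, mem_Ioi, mem_union, mem_ofPred_eq]
      exact lt_R1_iff (h.cont ω) hc
    rw [e]
    exact (meas_up h hc).union (meas_up h.neg hc)

/-- minimum over a rational interval -/
lemma meas_min (h : PP X) {a b : ℝ} (hab : a ≤ b) :
    Measurable (fun ω => sInf ((fun t => X t ω) '' Icc a b)) := by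
  have e : (fun ω => sInf ((fun t => X t ω) '' Icc a b)) =
      fun ω => ⨅ q : ℚ, X (a + cl q * (b - a)) ω := by
    funext ω
    set w : ℝ → ℝ := fun t => X t ω with hw
    have hwc : Continuous w := h.cont ω
    obtain ⟨z, hz, hmin⟩ := isCompact_Icc.exists_isMinOn (nonempty_Icc.2 hab)
      (hwc.continuousOn (s := Icc a b))
    have h1 : sInf (w '' Icc a b) = w z :=
      IsLeast.csInf_eq ⟨⟨z, hz, rfl⟩, by rintro _ ⟨r, hr, rfl⟩; exact hmin hr⟩
    have hmem : ∀ θ : ℝ, a + cl θ * (b - a) ∈ Icc a b := by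
      intro θ
      have h2 := cl_nonneg θ
      have h3 := cl_le_one θ
      exact ⟨by nlinarith, by nlinarith⟩
    rw [h1]
    refine le_antisymm (le_ciInf fun q => hmin (hmem q)) ?_
    have key : ∀ θ : ℝ, (⨅ q : ℚ, w (a + cl q * (b - a))) ≤ w (a + cl θ * (b - a)) := by
      refine rat_dense ?_ fun q => ?_
      · have := cl_cont
        exact isClosed_le (by fun_prop) (by fun_prop)
      · exact ciInf_le (f := fun q : ℚ => w (a + cl q * (b - a))) ⟨w z, by
          rintro _ ⟨q, rfl⟩; exact hmin (hmem q)⟩ q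
    rcases hab.eq_or_lt with h2 | h2
    · have := key 0
      rw [cl_of le_rfl zero_le_one, zero_mul, add_zero] at this
      have h3 : z = a := le_antisymm (h2 ▸ hz.2) hz.1
      rw [h3]; exact this
    · have hpos : 0 < b - a := by linarith
      have := key ((z - a)/(b - a))
      rwa [cl_of (div_nonneg (by linarith [hz.1]) hpos.le)
        ((div_le_one hpos).2 (by linarith [hz.2])),
        div_mul_cancel₀ _ hpos.ne', add_sub_cancel] at this
  rw [e]
  exact Measurable.iInf fun q => h.meas _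

end Pool.Agent.V11191.Span
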