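import Pool.Agent.V11191.Span.Meas

/-!
# Gaussian shifts of Brownian motion and null events
-/

open Set MeasureTheory Filter Topology ProbabilityTheory
open scoped NNReal ENNReal

namespace Pool.Agent.V11191.Span

variable {Ω : Type*} [mΩ : MeasurableSpace Ω] {P : Measure Ω}

/-- real-indexed path -/
def pth {Ω : Type*} (V : ℝ≥0 → Ω → ℝ) (ω : Ω) (t : ℝ) : ℝ := V t.toNNReal ω

/-- measurable path property -/
def MeasP (A : (ℝ → ℝ) → Prop) : Prop :=
  ∀ (Ω' : Type) [MeasurableSpace Ω'] (X : ℝ → Ω' → ℝ), PP X → MeasurableSet {ω | A (fun t => X t ω)}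

/-- shift function -/
noncomputable def sh (s : Finset ℝ≥0) (g : ℝ≥0 → ℝ) (t : ℝ≥0) : ℝ :=
  ∑ i ∈ s, g i * ((min i t : ℝ≥0) : ℝ)

lemma sh_cont (s : Finset ℝ≥0) (g : ℝ≥0 → ℝ) : Continuous (sh s g) := by
  unfold sh
  refine continuous_finsetSum _ fun i _ => ?_
  exact continuous_const.mul (NNReal.continuous_coe.comp (continuous_const.min continuous_id))

lemma pp_pth {V : ℝ≥0 → Ω → ℝ} (hm : ∀ t, Measurable (V t)) (hc : ∀ ω, Continuous (V · ω)) :
    PP (fun t ω => pth V ω t) :=
  ⟨fun _ => hm _, fun ω => (hc ω).comp continuous_real_toNNReal⟩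

theorem qi {V : ℝ≥0 → Ω → ℝ} (hm : ∀ t, Measurable (V t)) (hc : ∀ ω, Continuous (V · ω))
    (hB : IsPreBrownianReal V P) (s : Finset ℝ≥0) (g : ℝ≥0 → ℝ) (hne : ∃ t, sh s g t ≠ 0)
    {A : (ℝ → ℝ) → Prop} (hA : MeasP A)
    (hnull : ∀ w : ℝ → ℝ, Continuous w →
      volume {l : ℝ | A (fun t => w t + l * sh s g t.toNNReal)} = 0) :
    P {ω | A (pth V ω)} = 0 := by
  have hG := hB.isGaussianProcess
  have hP : IsProbabilityMeasure P := hG.isProbabilityMeasure
  set ξ : Ω → ℝ := fun ω => ∑ i ∈ s, g i * V i ω with hξ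
  have hξm : Measurable ξ := by
    simp only [hξ]
    exact Finset.measurable_sum _ fun i _ => (hm i).const_mul _
  -- joint Gaussian process (ξ, V)
  have hVL : ∀ t, MemLp (V t) 2 P := fun t => (hG.hasGaussianLaw_eval t).memLp_two
  have hξL : MemLp ξ 2 P := by
    simp only [hξ]
    exact memLp_finsetSum _ fun i _ => (hVL i).const_mul _
  have hcov : ∀ t, cov[ξ, V t; P] = sh s g t := by
    intro t
    simp only [hξ]
    rw [covariance_fun_sum_left' (fun i _ => (hVL i).const_mul _) (hVL t)]
    unfold sh
    refine Finset.sum_congr rfl fun i _ => ?_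
    rw [covariance_const_mul_left]
    congr 1
    rw [hB.covariance_eval]
  set σ2 := Var[ξ; P] with hσ2
  have hσpos : 0 < σ2 := by
    rcases (variance_nonneg ξ P).eq_or_lt with h | h
    · exfalso
      obtain ⟨t, ht⟩ := hne
      apply ht
      rw [← hcov t]
      have hae := ae_eq_integral_of_variance_eq_zero hξL h.symm
      unfold covariance
      rw [integral_eq_zero_of_ae]
      filter_upwards [hae] with ω hω
      rw [hω]; simp
    · exact h
  set η : Ω → ℝ := fun ω => σ2⁻¹ * ξ ω with hη
  have hηm : Measurable η := hξm.const_mul _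
  have hηL : MemLp η 2 P := hξL.const_mul _
  set Y : ℝ≥0 → Ω → ℝ := fun t ω => V t ω - sh s g t * η ω with hY
  have hYm : ∀ t, Measurable (Y t) := fun t => (hm t).sub (hηm.const_mul _)
  have hYc : ∀ ω, Continuous (Y · ω) := by
    intro ω
    have h1 := hc ω
    have h2 := sh_cont s g
    simp only [hY]; fun_prop
  have hcovη : ∀ t, cov[η, V t; P] = σ2⁻¹ * sh s g t := by
    intro t
    simp only [hη]
    rw [covariance_const_mul_left, hcov]
  have hvarη : cov[η, η; P] = σ2⁻¹ := by
    simp only [hη]
    rw [covariance_const_mul_left, covariance_const_mul_right, covariance_self hξm.aemeasurable,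
      ← hσ2]
    field_simp
  have hcovY : ∀ t, cov[η, Y t; P] = 0 := by
    intro t
    simp only [hY]
    rw [covariance_fun_sub_right hηL (hVL t) (hηL.const_mul _), covariance_const_mul_right,
      hcovη, hvarη]
    ring
  -- joint Gaussian
  have hJ : IsGaussianProcess (Sum.elim (fun _ : Unit => η) Y) P := by
    classical
    refine hG.of_isGaussianProcess ?_
    rintro (_ | t)
    · refine ⟨s, ∑ i : s, (σ2⁻¹ * g i) • ContinuousLinearMap.proj i, fun ω => ?_⟩
      simp only [Sum.elim_inl, hη, hξ, _root_.sum_apply, _root_.smul_apply,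
        ContinuousLinearMap.proj_apply, Finset.restrict_def, smul_eq_mul]
      rw [Finset.mul_sum, ← Finset.sum_coe_sort s]
      exact Finset.sum_congr rfl fun i _ => by ring
    · refine ⟨insert t s, ContinuousLinearMap.proj ⟨t, Finset.mem_insert_self t s⟩ -
        (sh s g t * σ2⁻¹) • ∑ i : s, (g i) • ContinuousLinearMap.proj
          (⟨i, Finset.mem_insert_of_mem i.2⟩ : (insert t s : Finset ℝ≥0)), fun ω => ?_⟩
      simp only [Sum.elim_inr, hY, hη, hξ, _root_.sub_apply,
        _root_.sum_apply, _root_.smul_apply,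
        ContinuousLinearMap.proj_apply, Finset.restrict_def, smul_eq_mul]
      rw [← Finset.sum_coe_sort s]
      ring
  have hind0 : IndepFun (fun ω (_ : Unit) => η ω) (fun ω t => Y t ω) P :=
    hJ.indepFun_of_covariance_eq_zero (fun _ => hηm.aemeasurable) (fun t => (hYm t).aemeasurable)
      (fun _ t => hcovY t)
  -- the space of continuous paths
  let C := {y : ℝ≥0 → ℝ // Continuous y}
  let Ψ : Ω → C := fun ω => ⟨fun t => Y t ω, hYc ω⟩
  have hΨm : Measurable Ψ := Measurable.subtype_mk (measurable_pi_lambda _ hYm)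
  have hind : IndepFun Ψ η P := by
    have h1 : IndepFun η (fun ω t => Y t ω) P :=
      hind0.comp (φ := fun x : Unit → ℝ => x ()) (ψ := id) (measurable_pi_apply ()) measurable_id
    have h2 : IndepFun η Ψ P := by
      rw [IndepFun_iff_Indep] at h1 ⊢
      convert h1 using 1
      change MeasurableSpace.comap Ψ (MeasurableSpace.comap Subtype.val _) = _
      rw [MeasurableSpace.comap_comp]
      rfl
    exact h2.symm
  -- the event on the product space
  let Z : ℝ → C × ℝ → ℝ := fun t p => p.1.1 t.toNNReal + p.2 * sh s g t.toNNReal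
  have hZ : PP Z := by
    constructor
    · intro t
      have h1 : Measurable (fun p : C × ℝ => p.1.1 t.toNNReal) :=
        (measurable_pi_apply _).comp (measurable_subtype_coe.comp measurable_fst)
      exact h1.add (measurable_snd.mul_const _)
    · intro p
      have h1 := p.1.2
      have h2 := sh_cont s g
      have h3 := continuous_real_toNNReal
      simp only [Z]
      exact (h1.comp h3).add (continuous_const.mul (h2.comp h3))
  have hN := hA _ Z hZ
  have hset : {ω | A (pth V ω)} = (fun ω => (Ψ ω, η ω)) ⁻¹' {p | A (fun t => Z t p)} := by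
    ext ω
    simp only [mem_ofPred_eq, mem_preimage]
    have : pth V ω = fun t => Z t (Ψ ω, η ω) := by
      funext t
      simp only [pth, Z, Ψ, hY]
      ring
    rw [this]
  rw [hset, ← Measure.map_apply (hΨm.prodMk hηm) hN,
    (indepFun_iff_map_prod_eq_prod_map_map hΨm.aemeasurable hηm.aemeasurable).1 hind,
    Measure.measure_prod_null hN]
  refine Eventually.of_forall fun y => ?_
  have hlaw : P.map η ≪ volume := by
    have h1 : HasGaussianLaw η P := hJ.hasGaussianLaw_eval (Sum.inl ())
    rw [h1.map_eq_gaussianReal]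
    refine gaussianReal_absolutelyContinuous _ ?_
    rw [← covariance_self hηm.aemeasurable, hvarη]
    exact (Real.toNNReal_pos.2 (inv_pos.2 hσpos)).ne'
  refine hlaw ?_
  exact hnull (fun t => y.1 t.toNNReal) (y.2.comp continuous_real_toNNReal)

end Pool.Agent.V11191.Span
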