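import Pool.Agent.V11191.Span.Prob

/-!
# Brownian paths are good, and pushed functionals have diffuse laws
-/

open Set MeasureTheory Filter Topology ProbabilityTheory
open scoped NNReal ENNReal

namespace Pool.Agent.V11191.Span

variable {Ω : Type*} [mΩ : MeasurableSpace Ω] {P : Measure Ω}

/-- the points of a set after which the set is null form a null set -/
lemma right_null {L : Set ℝ} {ε : ℝ} (hε : 0 < ε) :
    volume {l | l ∈ L ∧ volume (L ∩ Ioo l (l + ε)) = 0} = 0 := by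
  set E := {l | l ∈ L ∧ volume (L ∩ Ioo l (l + ε)) = 0} with hE
  have hcov : E ⊆ ⋃ q : ℚ, {l | l ∈ E ∧ l < q ∧ (q:ℝ) < l + ε} := by
    intro l hl
    obtain ⟨q, h1, h2⟩ := exists_rat_btwn (show l < l + ε by linarith)
    exact mem_iUnion.2 ⟨q, hl, h1, h2⟩
  refine measure_mono_null hcov (measure_iUnion_null fun q => ?_)
  set F := {l | l ∈ E ∧ l < q ∧ (q:ℝ) < l + ε} with hF
  rcases F.eq_empty_or_nonempty with h0 | h0
  · rw [h0]; exact measure_empty
  have hb : BddBelow F := ⟨q - ε, fun l hl => by linarith [hl.2.2]⟩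
  set i := sInf F with hi
  have hsub : F ⊆ {i} ∪ ⋃ r : ℚ, ⋃ (_ : i < r), (L ∩ Ioo (r:ℝ) q) := by
    intro l hl
    rcases (csInf_le hb hl).eq_or_lt with h1 | h1
    · left; rw [mem_singleton_iff]; exact h1.symm
    · right
      obtain ⟨r, h2, h3⟩ := exists_rat_btwn h1
      simp only [mem_iUnion]
      exact ⟨r, h2, hl.1.1, h3, hl.2.1⟩
  refine measure_mono_null hsub (measure_union_null (by simp) ?_)
  refine measure_iUnion_null fun r => measure_iUnion_null fun hr => ?_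
  obtain ⟨l, hl, hlr⟩ := exists_lt_of_csInf_lt h0 hr
  refine measure_mono_null ?_ hl.1.2
  rintro x ⟨hx, hx1, hx2⟩
  exact ⟨hx, by linarith, by linarith [hl.2.2]⟩

/-- measurable path functional -/
def MeasF (Φ : (ℝ → ℝ) → ℝ) : Prop :=
  ∀ (Ω' : Type) [MeasurableSpace Ω'] (X : ℝ → Ω' → ℝ), PP X → Measurable (fun ω => Φ (fun t => X t ω))

theorem acc {V : ℝ≥0 → Ω → ℝ} (hm : ∀ t, Measurable (V t)) (hc : ∀ ω, Continuous (V · ω))
    (hB : IsPreBrownianReal V P) (s : Finset ℝ≥0) (g : ℝ≥0 → ℝ) (hne : ∃ t, sh s g t ≠ 0)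
    {Φ : (ℝ → ℝ) → ℝ} (hΦ : MeasF Φ) (c : ℝ) :
    ∀ᵐ ω ∂P, Φ (pth V ω) = c → ∀ n : ℕ, ∃ l : ℝ, 0 < l ∧ l < 1/((n:ℝ)+1) ∧
      Φ (fun t => pth V ω t + l * sh s g t.toNNReal) = c := by
  set f : ℝ → ℝ := fun t => sh s g t.toNNReal with hf
  have hfc : Continuous f := (sh_cont s g).comp continuous_real_toNNReal
  have key : ∀ n : ℕ, P {ω | Φ (pth V ω) = c ∧
      volume ({l : ℝ | Φ (fun t => pth V ω t + l * f t) = c} ∩ Ioo 0 (1/((n:ℝ)+1))) = 0} = 0 := by
    intro n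
    refine qi (A := fun w => Φ w = c ∧
      volume ({l : ℝ | Φ (fun t => w t + l * f t) = c} ∩ Ioo 0 (1/((n:ℝ)+1))) = 0)
      hm hc hB s g hne ?_ ?_
    · intro Ω' _ X hX
      have h1 : MeasurableSet {ω | Φ (fun t => X t ω) = c} :=
        (hΦ Ω' X hX) (measurableSet_singleton c)
      have hX2 : PP (fun t (p : ℝ × Ω') => X t p.2 + p.1 * f t) := by
        constructor
        · intro t
          exact ((hX.meas t).comp measurable_snd).add (measurable_fst.mul_const _)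
        · intro p
          exact (hX.cont p.2).add (continuous_const.mul hfc)
      have h2 : MeasurableSet {p : ℝ × Ω' | Φ (fun t => X t p.2 + p.1 * f t) = c} :=
        (hΦ (ℝ × Ω') _ hX2) (measurableSet_singleton c)
      have h3 := measurable_measure_prodMk_right
        (μ := (volume : Measure ℝ).restrict (Ioo 0 (1/((n:ℝ)+1)))) h2
      have h4 : MeasurableSet {ω : Ω' |
          volume ({l : ℝ | Φ (fun t => X t ω + l * f t) = c} ∩ Ioo 0 (1/((n:ℝ)+1))) = 0} := by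
        have h5 := h3 (measurableSet_singleton 0)
        convert h5 using 1
        ext ω
        simp only [mem_ofPred_eq, mem_preimage, mem_singleton_iff]
        rw [Measure.restrict_apply' measurableSet_Ioo]
        rfl
      exact h1.inter h4
    · intro w hw
      set L := {l : ℝ | Φ (fun t => w t + l * f t) = c} with hL
      refine measure_mono_null ?_ (right_null (L := L) (ε := 1/((n:ℝ)+1)) (by positivity))
      rintro l ⟨hl1, hl2⟩
      refine ⟨hl1, ?_⟩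
      have e : L ∩ Ioo l (l + 1/((n:ℝ)+1)) =
          (fun x => x + (-l)) ⁻¹' ({l' : ℝ | Φ (fun t => (w t + l * sh s g t.toNNReal) + l' * f t) = c} ∩
            Ioo 0 (1/((n:ℝ)+1))) := by
        ext x
        simp only [hL, mem_inter_iff, mem_ofPred_eq, mem_preimage, mem_Ioo]
        have e1 : (fun t => (w t + l * sh s g t.toNNReal) + (x + -l) * f t) =
            fun t => w t + x * f t := by
          funext t; simp only [hf]; ring
        rw [e1]
        constructor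
        · rintro ⟨h1, h2, h3⟩; exact ⟨h1, by linarith, by linarith⟩
        · rintro ⟨h1, h2, h3⟩; exact ⟨h1, by linarith, by linarith⟩
      rw [e, measure_preimage_add_right]
      exact hl2
  have hall : ∀ᵐ ω ∂P, ∀ n : ℕ, ¬ (Φ (pth V ω) = c ∧
      volume ({l : ℝ | Φ (fun t => pth V ω t + l * f t) = c} ∩ Ioo 0 (1/((n:ℝ)+1))) = 0) := by
    rw [ae_all_iff]
    intro n
    have := key n
    rw [ae_iff]
    simpa using this
  filter_upwards [hall] with ω hω hc n
  have h1 := hω n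
  push Not at h1
  have h2 := h1 hc
  obtain ⟨l, hl1, hl2⟩ := nonempty_of_measure_ne_zero h2
  exact ⟨l, hl2.1, hl2.2, hl1⟩

/-- representable shifts -/
def Rep (f : ℝ≥0 → ℝ) : Prop := ∃ G : ℝ≥0 →₀ ℝ, ∀ t, f t = G.sum fun i x => x * ((min i t : ℝ≥0) : ℝ)

lemma Rep.add {f f' : ℝ≥0 → ℝ} (h : Rep f) (h' : Rep f') : Rep (fun t => f t + f' t) := by
  classical
  obtain ⟨G, hG⟩ := h
  obtain ⟨G', hG'⟩ := h'
  refine ⟨G + G', fun t => ?_⟩
  simp only [hG, hG']
  rw [Finsupp.sum_add_index']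
  · intro a; ring
  · intro a b c; ring

lemma Rep.smul {f : ℝ≥0 → ℝ} (h : Rep f) (c : ℝ) : Rep (fun t => c * f t) := by
  obtain ⟨G, hG⟩ := h
  refine ⟨c • G, fun t => ?_⟩
  simp only [hG]
  rw [Finsupp.sum_smul_index, Finsupp.mul_sum]
  · refine Finsupp.sum_congr fun i _ => ?_
    ring
  · intro a; ring

lemma Rep.ofMin (a : ℝ≥0) : Rep (fun t => ((min a t : ℝ≥0) : ℝ)) := by
  refine ⟨Finsupp.single a 1, fun t => ?_⟩
  rw [Finsupp.sum_single_index] <;> ring

lemma Rep.zero : Rep (fun _ => 0) := ⟨0, fun t => by simp⟩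

lemma Rep.sum {ι : Type*} (s : Finset ι) {f : ι → ℝ≥0 → ℝ} (h : ∀ i ∈ s, Rep (f i)) :
    Rep (fun t => ∑ i ∈ s, f i t) := by
  classical
  induction s using Finset.induction with
  | empty => simpa using Rep.zero
  | insert i s hi ih =>
    have h1 := (h i (Finset.mem_insert_self i s)).add (ih fun j hj => h j (Finset.mem_insert_of_mem hj))
    simpa [Finset.sum_insert hi] using h1

lemma Rep.sh {f : ℝ≥0 → ℝ} (h : Rep f) : ∃ s g, ∀ t, f t = sh s g t := by
  obtain ⟨G, hG⟩ := h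
  exact ⟨G.support, G, fun t => hG t⟩

/-- the ramp from `0` at `b` to `1` at `c` -/
lemma Rep.rampbc (b c : ℝ≥0) (r : ℝ) :
    Rep (fun t => r * (((min c t : ℝ≥0) : ℝ) - ((min b t : ℝ≥0) : ℝ))) := by
  have := ((Rep.ofMin c).add ((Rep.ofMin b).smul (-1))).smul r
  convert this using 2
  ring

lemma Rep.ff (n : ℕ) (c : ℕ →₀ ℚ) : Rep (fun t => ff n c t) := by
  unfold Span.ff
  refine Rep.sum _ fun k _ => ?_
  refine Rep.smul ?_ _
  have := Rep.rampbc (((k:ℝ≥0))/n) (((k:ℝ≥0)+1)/n) n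
  convert this using 2
  simp [ramp]

lemma ff_neg_time {n : ℕ} (hn : 0 < n) (c : ℕ →₀ ℚ) (t : ℝ) :
    ff n c t = ff n c (t.toNNReal : ℝ) := by
  rcases le_or_gt 0 t with h | h
  · rw [Real.coe_toNNReal t h]
  · rw [Real.toNNReal_of_nonpos h.le]
    unfold ff
    refine Finset.sum_congr rfl fun k _ => ?_
    rw [ramp_left hn (h.le.trans (by positivity)), ramp_left hn (by simp; positivity)]

/-- **Pushed functionals have diffuse laws.** -/
theorem diffuse {V : ℝ≥0 → Ω → ℝ} (hm : ∀ t, Measurable (V t)) (hc : ∀ ω, Continuous (V · ω))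
    (hB : IsPreBrownianReal V P) (hgood : ∀ᵐ ω ∂P, Good (pth V ω))
    {Φ : (ℝ → ℝ) → ℝ} (hΦ : MeasF Φ)
    (hloc : ∀ w v : ℝ → ℝ, (∀ t, 0 ≤ t → w t = v t) → Φ w = Φ v)
    (hpush : ∀ w, Good w → ∃ (n : ℕ) (c : ℕ →₀ ℚ), 0 < n ∧ ∃ l0 : ℝ, 0 < l0 ∧
      ∀ l, 0 < l → l < l0 → Φ (fun t => w t + l * ff n c t) ≠ Φ w) (c : ℝ) :
    P {ω | Φ (pth V ω) = c} = 0 := by
  have hacc : ∀ᵐ ω ∂P, ∀ (n : ℕ) (a : ℕ →₀ ℚ), 0 < n → (∃ t : ℝ≥0, ff n a t ≠ 0) →
      Φ (pth V ω) = c → ∀ m : ℕ, ∃ l : ℝ, 0 < l ∧ l < 1/((m:ℝ)+1) ∧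
      Φ (fun t => pth V ω t + l * ff n a t) = c := by
    rw [ae_all_iff]; intro n
    rw [ae_all_iff]; intro a
    by_cases hn : 0 < n
    swap
    · exact Eventually.of_forall fun ω h => absurd h hn
    by_cases hne : ∃ t : ℝ≥0, ff n a t ≠ 0
    swap
    · exact Eventually.of_forall fun ω _ h => absurd h hne
    obtain ⟨s, g, hsg⟩ := (Rep.ff n a).sh
    have hne' : ∃ t, sh s g t ≠ 0 := by
      obtain ⟨t, ht⟩ := hne
      exact ⟨t, by rw [← hsg]; exact ht⟩
    filter_upwards [acc hm hc hB s g hne' hΦ c] with ω hω _ _ h m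
    obtain ⟨l, h1, h2, h3⟩ := hω h m
    refine ⟨l, h1, h2, ?_⟩
    rw [← h3]
    congr 1
    funext t
    rw [ff_neg_time hn a t, hsg]
  have : ∀ᵐ ω ∂P, ¬ Φ (pth V ω) = c := by
    filter_upwards [hacc, hgood] with ω hω hg heq
    obtain ⟨n, a, hn, l0, hl0, hp⟩ := hpush _ hg
    by_cases hne : ∃ t : ℝ≥0, ff n a t ≠ 0
    · obtain ⟨m, hm⟩ := exists_nat_one_div_lt hl0
      obtain ⟨l, h1, h2, h3⟩ := hω n a hn hne heq m
      exact hp l h1 (h2.trans hm) (h3.trans heq.symm)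
    · push Not at hne
      refine hp (l0/2) (by positivity) (by linarith) (hloc _ _ fun t ht => ?_)
      have := hne ⟨t, ht⟩
      have h2 : ff n a t = 0 := this
      rw [h2]; ring
  rw [ae_iff] at this
  simpa using this

end Pool.Agent.V11191.Span
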