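import Pool.Agent.V11191.Span.Defs

/-!
# The span set of a good path can be made smaller
-/

open Set MeasureTheory Filter Topology

namespace Pool.Agent.V11191.Span

/-- all chords of length `u` go up -/
def Pos (w : ℝ → ℝ) (u : ℝ) : Prop := ∀ r, u ≤ r → r ≤ 1 → w (r - u) < w r

/-- all chords of length `u` go down -/
def Neg (w : ℝ → ℝ) (u : ℝ) : Prop := ∀ r, u ≤ r → r ≤ 1 → w r < w (r - u)

lemma mem_Sp_iff {w : ℝ → ℝ} {u : ℝ} (h0 : 0 ≤ u) :
    u ∈ Sp w ↔ ∃ r, u ≤ r ∧ r ≤ 1 ∧ w (r - u) = w r := by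
  constructor
  · rintro ⟨s, t, hs, hst, ht, he, rfl⟩
    exact ⟨t, by linarith, ht, by rw [sub_sub_cancel]; exact he⟩
  · rintro ⟨r, h1, h2, h3⟩
    exact ⟨r - u, r, by linarith, by linarith, h2, h3, by ring⟩

lemma not_mem_Sp_iff {w : ℝ → ℝ} (hw : Continuous w) {u : ℝ} (h0 : 0 ≤ u) :
    u ∉ Sp w ↔ Pos w u ∨ Neg w u := by
  rw [mem_Sp_iff h0]
  constructor
  · intro h
    push Not at h
    by_contra hcon
    unfold Pos Neg at hcon
    push Not at hcon
    obtain ⟨⟨r1, a1, a2, a3⟩, ⟨r2, b1, b2, b3⟩⟩ := hcon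
    set g : ℝ → ℝ := fun r => w r - w (r - u) with hg
    have hgc : Continuous g := by simp only [hg]; fun_prop
    have hmem : (0:ℝ) ∈ uIcc (g r1) (g r2) := by
      rw [uIcc_of_le (by simp only [hg]; linarith)]
      exact ⟨by simp only [hg]; linarith, by simp only [hg]; linarith⟩
    obtain ⟨r, hr, hr2⟩ := intermediate_value_uIcc (hgc.continuousOn (s := uIcc r1 r2)) hmem
    have h1 : u ≤ r := le_trans (le_min a1 b1) hr.1
    have h2 : r ≤ 1 := le_trans hr.2 (max_le a2 b2)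
    exact h r h1 h2 (by simp only [hg] at hr2; linarith)
  · rintro (h | h) ⟨r, h1, h2, h3⟩
    · exact absurd h3 (h r h1 h2).ne
    · exact absurd h3 (h r h1 h2).ne'

lemma Sp_subset (w : ℝ → ℝ) : Sp w ⊆ Icc 0 1 := by
  rintro u ⟨s, t, hs, hst, ht, _, rfl⟩
  exact ⟨by linarith, by linarith⟩

lemma Sp_closed {w : ℝ → ℝ} (hw : Continuous w) : IsClosed (Sp w) := by
  have hK : IsCompact ((Icc (0:ℝ) 1 ×ˢ Icc (0:ℝ) 1) ∩ {z : ℝ × ℝ | z.1 ≤ z.2 ∧ w z.1 = w z.2}) := by
    refine (isCompact_Icc.prod isCompact_Icc).inter_right ?_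
    exact (isClosed_le continuous_fst continuous_snd).inter
      (isClosed_eq (hw.comp continuous_fst) (hw.comp continuous_snd))
  have e : Sp w = (fun z : ℝ × ℝ => z.2 - z.1) ''
      ((Icc (0:ℝ) 1 ×ˢ Icc (0:ℝ) 1) ∩ {z : ℝ × ℝ | z.1 ≤ z.2 ∧ w z.1 = w z.2}) := by
    ext u
    constructor
    · rintro ⟨s, t, hs, hst, ht, he, rfl⟩
      exact ⟨(s, t), ⟨⟨⟨hs, hst.trans ht⟩, ⟨hs.trans hst, ht⟩⟩, hst, he⟩, rfl⟩
    · rintro ⟨⟨s, t⟩, ⟨⟨h1, h2⟩, h3, h4⟩, rfl⟩
      exact ⟨s, t, h1.1, h3, h2.2, h4, rfl⟩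
  rw [e]
  exact (hK.image (by fun_prop)).isClosed

/-- weak form of `Pos` -/
def WPos (w : ℝ → ℝ) (u : ℝ) : Prop := ∀ r, u ≤ r → r ≤ 1 → w (r - u) ≤ w r

lemma Pos.weak {w : ℝ → ℝ} {u : ℝ} (h : Pos w u) : WPos w u := fun r h1 h2 => (h r h1 h2).le

lemma neg_iff {w : ℝ → ℝ} {u : ℝ} : Neg w u ↔ Pos (fun t => - w t) u := by
  unfold Neg Pos
  simp only [neg_lt_neg_iff]

/-- a path segment is not repeated -/
lemma ident {w : ℝ → ℝ} (hw : Continuous w) (hG : G1 w) (h2 : G2 w)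
    (h2' : G2 (fun t => - w t)) {x y j1 j2 : ℝ} (hxy : x < y) (hj : j1 < j2)
    (h0 : 0 ≤ x + j1) (h1 : y + j2 ≤ 1)
    (he : ∀ v, j1 ≤ v → v ≤ j2 → w (x + v) = w (y + v)) : False := by
  obtain ⟨b, hb1, hb2⟩ := exists_rat_btwn (show x + j1 < x + j2 by linarith)
  obtain ⟨a, ha1, ha2⟩ := exists_rat_btwn hb1
  obtain ⟨c, hc1, hc2⟩ := exists_rat_btwn hb2
  have ha0 : (0:ℚ) ≤ a := by
    have : (0:ℝ) ≤ a := by linarith
    exact_mod_cast this
  have hab : a < b := by exact_mod_cast ha2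
  have hbc : b < c := by exact_mod_cast hc1
  have hcc : c ≤ 1 := by
    have : (c:ℝ) ≤ 1 := by linarith
    exact_mod_cast this
  obtain ⟨x1, y1, p1, p2, p3, p4⟩ := h2' a b ha0 hab (hbc.le.trans hcc)
  obtain ⟨x2, y2, q1, q2, q3, q4⟩ := h2 b c (ha0.trans hab.le) hbc hcc
  have p4' : w y1 < w x1 := neg_lt_neg_iff.1 p4
  have hx1y2 : x1 < y2 := by linarith
  obtain ⟨z, ⟨hz1, hz2⟩, hzmin⟩ := isCompact_Icc.exists_isMinOn (nonempty_Icc.2 hx1y2.le)
    (hw.continuousOn (s := Icc x1 y2))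
  have hzmin' : ∀ r, x1 ≤ r → r ≤ y2 → w z ≤ w r := fun r h1 h2 => hzmin ⟨h1, h2⟩
  have hz1' : x1 < z := by
    rcases hz1.eq_or_lt with h | h
    · subst h
      exact absurd (hzmin' y1 p2.le (by linarith)) (not_le.2 p4')
    · exact h
  have hz2' : z < y2 := by
    rcases hz2.eq_or_lt with h | h
    · subst h
      exact absurd (hzmin' x2 (by linarith) q2.le) (not_le.2 q4)
    · exact h
  have he' : ∀ t, x + j1 ≤ t → t ≤ x + j2 → w (t + (y - x)) = w t := by
    intro t h1 h2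
    have := he (t - x) (by linarith) (by linarith)
    rw [show x + (t - x) = t by ring, show y + (t - x) = t + (y - x) by ring] at this
    exact this.symm
  have hε : 0 < min (z - x1) (y2 - z) := lt_min (by linarith) (by linarith)
  have m1 := min_le_left (z - x1) (y2 - z)
  have m2 := min_le_right (z - x1) (y2 - z)
  refine locmin_unique hG (z1 := z) (z2 := z + (y - x)) (by linarith) (by linarith) (by linarith)
    hε ?_ ?_ (he' z (by linarith) (by linarith)).symm
  · intro r _ _ hr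
    rw [abs_lt] at hr
    exact hzmin' r (by linarith) (by linarith)
  · intro r _ _ hr
    rw [abs_lt] at hr
    rw [he' z (by linarith) (by linarith)]
    have h3 := he' (r - (y - x)) (by linarith) (by linarith)
    rw [show r - (y - x) + (y - x) = r by ring] at h3
    rw [h3]
    exact hzmin' _ (by linarith) (by linarith)

/-- short chords do not all go up -/
lemma short {w : ℝ → ℝ} (hw : Continuous w) (h2' : G2 (fun t => - w t)) :
    ∃ η : ℝ, 0 < η ∧ ∀ u, 0 < u → u ≤ 1 → WPos w u → η ≤ u := by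
  obtain ⟨a, b, ha, hab, hb, hlt⟩ := h2' 0 1 le_rfl one_pos le_rfl
  have hlt' : w b < w a := neg_lt_neg_iff.1 hlt
  have hb' : b ≤ 1 := by simpa using hb
  have ha' : 0 ≤ a := by simpa using ha
  have hev : ∀ᶠ z in 𝓝 b, w z < w a := hw.continuousAt.eventually_lt_const hlt'
  obtain ⟨δ, hδ, hball⟩ := Metric.eventually_nhds_iff.1 hev
  refine ⟨δ, hδ, fun u hu0 hu1 hup => ?_⟩
  by_contra hcon
  push Not at hcon
  set n := ⌊(b - a)/u⌋₊ with hn
  have hfl : (n:ℝ) ≤ (b - a)/u := Nat.floor_le (div_nonneg (by linarith) hu0.le)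
  have hfl2 : (b - a)/u < n + 1 := Nat.lt_floor_add_one _
  rw [le_div_iff₀ hu0] at hfl
  rw [div_lt_iff₀ hu0] at hfl2
  have hind : ∀ k : ℕ, (k:ℝ) * u ≤ b - a → w a ≤ w (a + k * u) := by
    intro k
    induction k with
    | zero => intro _; simp
    | succ k ih =>
      intro hk
      push_cast at hk
      have h1 : (0:ℝ) ≤ k * u := by positivity
      have h2 := ih (by nlinarith)
      have h3 := hup (a + ((k:ℝ)+1) * u) (by nlinarith) (by nlinarith)
      rw [show a + ((k:ℝ)+1) * u - u = a + k * u by ring] at h3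
      push_cast
      exact h2.trans h3
  have h3 := hind n hfl
  have h4 := hball (y := a + n * u) (by
    rw [Real.dist_eq, abs_lt]; constructor <;> nlinarith)
  linarith

lemma wpos_closed {w : ℝ → ℝ} (hw : Continuous w) : IsClosed {u : ℝ | u ≤ 1 ∧ WPos w u} := by
  have e : {u : ℝ | u ≤ 1 ∧ WPos w u} = {u | u ≤ 1} ∩
      ⋂ (θ : ℝ), ⋂ (_ : 0 ≤ θ), ⋂ (_ : θ ≤ 1), {u | w (θ * (1 - u)) ≤ w (u + θ * (1 - u))} := by
    ext u
    simp only [mem_ofPred_eq, mem_inter_iff, mem_iInter]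
    refine and_congr_right fun hu => ?_
    constructor
    · intro h θ t0 t1
      have := h (u + θ * (1 - u)) (by nlinarith) (by nlinarith)
      rwa [add_sub_cancel_left] at this
    · intro h r h1 h2
      rcases hu.eq_or_lt with h3 | h3
      · have h4 : r = u := by linarith
        have h5 := h 0 le_rfl zero_le_one
        simp only [zero_mul, add_zero] at h5
        rw [h4, sub_self]; exact h5
      · have hpos : 0 < 1 - u := by linarith
        have := h ((r - u)/(1 - u)) (div_nonneg (by linarith) hpos.le)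
          ((div_le_one hpos).2 (by linarith))
        rwa [div_mul_cancel₀ _ hpos.ne', add_sub_cancel] at this
  rw [e]
  refine (isClosed_le continuous_id continuous_const).inter ?_
  refine isClosed_iInter fun θ => isClosed_iInter fun _ => isClosed_iInter fun _ => ?_
  exact isClosed_le (by fun_prop) (by fun_prop)

/-- the compact set of weakly positive chords -/
def Ch (w : ℝ → ℝ) (η : ℝ) : Set (ℝ × ℝ) :=
  {z | η ≤ z.1 ∧ (z.1 ≤ 1 ∧ WPos w z.1) ∧ z.1 ≤ z.2 ∧ z.2 ≤ 1}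

lemma Ch_compact {w : ℝ → ℝ} (hw : Continuous w) (η : ℝ) : IsCompact (Ch w η) := by
  have hsub : Ch w η ⊆ Icc η 1 ×ˢ Icc η 1 := by
    rintro ⟨u, r⟩ ⟨h1, ⟨h2, _⟩, h3, h4⟩
    exact ⟨⟨h1, h2⟩, ⟨h1.trans h3, h4⟩⟩
  refine (isCompact_Icc.prod isCompact_Icc).of_isClosed_subset ?_ hsub
  refine (isClosed_le continuous_const continuous_fst).inter ?_
  refine ((wpos_closed hw).preimage continuous_fst).inter ?_
  exact (isClosed_le continuous_fst continuous_snd).inter
    (isClosed_le continuous_snd continuous_const)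

/-- a small multiple of `f` makes all weakly positive chords strictly positive -/
lemma push_pos {w f : ℝ → ℝ} (hw : Continuous w) (hf : Continuous f) {η : ℝ}
    (h : ∀ u r, η ≤ u → u ≤ r → r ≤ 1 → WPos w u → w (r - u) = w r → f (r - u) < f r) :
    ∃ l0 : ℝ, 0 < l0 ∧ ∀ l, 0 < l → l < l0 → ∀ u, η ≤ u → u ≤ 1 → WPos w u →
      Pos (fun t => w t + l * f t) u := by
  -- the compact set where the increment of f is not positive
  have hK : IsCompact (Ch w η ∩ {z : ℝ × ℝ | f z.2 - f (z.2 - z.1) ≤ 0}) :=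
    (Ch_compact hw η).inter_right (isClosed_le (by fun_prop) continuous_const)
  obtain ⟨M, hM⟩ := (Ch_compact hw η).exists_bound_of_continuousOn
    (f := fun z : ℝ × ℝ => f z.2 - f (z.2 - z.1)) (by fun_prop)
  have hm : ∃ m : ℝ, 0 < m ∧ ∀ z ∈ Ch w η ∩ {z : ℝ × ℝ | f z.2 - f (z.2 - z.1) ≤ 0},
      m ≤ w z.2 - w (z.2 - z.1) := by
    rcases (Ch w η ∩ {z : ℝ × ℝ | f z.2 - f (z.2 - z.1) ≤ 0}).eq_empty_or_nonempty with h0 | h0
    · exact ⟨1, one_pos, fun z hz => by rw [h0] at hz; exact hz.elim⟩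
    · obtain ⟨z, hz, hmin⟩ := hK.exists_isMinOn h0
        (f := fun z : ℝ × ℝ => w z.2 - w (z.2 - z.1)) (by fun_prop)
      refine ⟨w z.2 - w (z.2 - z.1), ?_, fun z' hz' => hmin hz'⟩
      obtain ⟨⟨a1, ⟨a2, a3⟩, a4, a5⟩, a6⟩ := hz
      have h1 := a3 z.2 a4 a5
      rcases h1.eq_or_lt with h2 | h2
      · have := h z.1 z.2 a1 a4 a5 a3 h2
        have a6' : f z.2 - f (z.2 - z.1) ≤ 0 := a6
        linarith
      · linarith
  obtain ⟨m, hm0, hm1⟩ := hm
  have hM0 : 0 ≤ |M| := abs_nonneg M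
  refine ⟨m / (|M| + 1), by positivity, fun l hl0 hl1 u hu0 hu1 hup r hr0 hr1 => ?_⟩
  rw [lt_div_iff₀ (by positivity)] at hl1
  simp only
  have hz : (u, r) ∈ Ch w η := ⟨hu0, ⟨hu1, hup⟩, hr0, hr1⟩
  rcases le_or_gt (f r - f (r - u)) 0 with h1 | h1
  · have h2 := hm1 (u, r) ⟨hz, h1⟩
    have h3 := hM (u, r) hz
    simp only [Real.norm_eq_abs] at h3
    have h4 := abs_le.1 h3
    have h5 : M ≤ |M| := le_abs_self M
    have h6 : l * (f (r - u) - f r) ≤ l * |M| := by
      apply mul_le_mul_of_nonneg_left _ hl0.le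
      linarith
    simp only at h2
    nlinarith
  · have h2 := hup r hr0 hr1
    have h3 : 0 < l * (f r - f (r - u)) := mul_pos hl0 h1
    linarith

/-- the window averages along the path, weighted by functions of the level -/
noncomputable def Fn (w : ℝ → ℝ) (ε δ : ℝ) (x : ℝ) : ℝ :=
  max (|w x - w 0| - ε) 0 * (∫ v in (-δ)..0, w (x + v)) +
  max (|w x - w 1| - ε) 0 * (∫ v in (0:ℝ)..δ, w (x + v))

lemma Fn_cont {w : ℝ → ℝ} (hw : Continuous w) (ε δ : ℝ) : Continuous (Fn w ε δ) := by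
  have h : ∀ a b : ℝ, Continuous fun x => ∫ v in a..b, w (x + v) := by
    intro a b
    refine intervalIntegral.continuous_parametric_intervalIntegral_of_continuous' ?_ a b
    exact hw.comp (continuous_fst.add continuous_snd)
  unfold Fn
  have h1 := h (-δ) 0
  have h2 := h 0 δ
  fun_prop

lemma Fn_neg (w : ℝ → ℝ) (ε δ x : ℝ) : Fn (fun t => - w t) ε δ x = - Fn w ε δ x := by
  unfold Fn
  simp only [intervalIntegral.integral_neg]
  rw [show |-w x - -w 0| = |w x - w 0| by rw [← abs_neg]; congr 1; ring,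
    show |-w x - -w 1| = |w x - w 1| by rw [← abs_neg]; congr 1; ring]
  ring

lemma Fn_lt {w : ℝ → ℝ} (hw : Continuous w) (hG : G1 w) (h2 : G2 w)
    (h2' : G2 (fun t => - w t)) {ε δ : ℝ} (hδ : 0 < δ) (hε : ε < |w 0 - w 1| / 2)
    (ha : ∀ z, 0 ≤ z → z ≤ δ → |w z - w 0| ≤ ε)
    (hb : ∀ z, 1 - δ ≤ z → z ≤ 1 → |w z - w 1| ≤ ε)
    {u r : ℝ} (hu : 0 < u) (hur : u ≤ r) (hr : r ≤ 1) (hp : WPos w u) (he : w (r - u) = w r) :
    Fn w ε δ (r - u) < Fn w ε δ r := by
  -- positivity of the two parts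
  have hint : ∀ a b x : ℝ, IntervalIntegrable (fun v => w (x + v)) volume a b := by
    intro a b x
    exact (hw.comp (continuous_const.add continuous_id)).intervalIntegrable a b
  have key : ∀ j1 j2 : ℝ, j1 < j2 → 0 ≤ r - u + j1 → r + j2 ≤ 1 →
      (∫ v in j1..j2, w (r - u + v)) < ∫ v in j1..j2, w (r + v) := by
    intro j1 j2 hj h0 h1
    rw [← sub_pos, ← intervalIntegral.integral_sub (hint _ _ _) (hint _ _ _)]
    have hnn : ∀ v, j1 ≤ v → v ≤ j2 → 0 ≤ w (r + v) - w (r - u + v) := by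
      intro v hv1 hv2
      have := hp (r + v) (by linarith) (by linarith)
      rw [show r + v - u = r - u + v by ring] at this
      linarith
    have hex : ∃ v, j1 ≤ v ∧ v ≤ j2 ∧ 0 < w (r + v) - w (r - u + v) := by
      by_contra hcon
      push Not at hcon
      refine ident hw hG h2 h2' (x := r - u) (y := r) (by linarith) hj h0 h1 ?_
      intro v hv1 hv2
      have := hnn v hv1 hv2
      have := hcon v hv1 hv2
      linarith
    obtain ⟨v, hv1, hv2, hv3⟩ := hex
    refine intervalIntegral.integral_pos hj (by fun_prop) ?_ ⟨v, ⟨hv1, hv2⟩, hv3⟩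
    intro t ht
    exact hnn t ht.1.le ht.2
  have hA : max (|w r - w 0| - ε) 0 = 0 ∨ (0 < max (|w r - w 0| - ε) 0 ∧
      (∫ v in (-δ)..0, w (r - u + v)) < ∫ v in (-δ)..0, w (r + v)) := by
    rcases le_or_gt (|w r - w 0| - ε) 0 with h | h
    · left; exact max_eq_right h
    · right
      refine ⟨lt_max_of_lt_left h, key _ _ (by linarith) ?_ (by linarith)⟩
      by_contra hcon
      have := ha (r - u) (by linarith) (by linarith)
      rw [he] at this
      linarith
  have hB : max (|w r - w 1| - ε) 0 = 0 ∨ (0 < max (|w r - w 1| - ε) 0 ∧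
      (∫ v in (0:ℝ)..δ, w (r - u + v)) < ∫ v in (0:ℝ)..δ, w (r + v)) := by
    rcases le_or_gt (|w r - w 1| - ε) 0 with h | h
    · left; exact max_eq_right h
    · right
      refine ⟨lt_max_of_lt_left h, key _ _ (by linarith) (by linarith) ?_⟩
      by_contra hcon
      have := hb r (by linarith) hr
      linarith
  have hnot : 0 < max (|w r - w 0| - ε) 0 ∨ 0 < max (|w r - w 1| - ε) 0 := by
    by_contra hcon
    push Not at hcon
    have h1 := (le_max_left (|w r - w 0| - ε) 0).trans hcon.1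
    have h2 := (le_max_left (|w r - w 1| - ε) 0).trans hcon.2
    have h3 : |w 0 - w 1| ≤ |w r - w 0| + |w r - w 1| := by
      calc |w 0 - w 1| = |(w r - w 1) - (w r - w 0)| := by congr 1; ring
        _ ≤ |w r - w 1| + |w r - w 0| := abs_sub _ _
        _ = _ := add_comm _ _
    linarith
  unfold Fn
  rw [he]
  rcases hA with hA | ⟨hA, hA'⟩ <;> rcases hB with hB | ⟨hB, hB'⟩
  · rcases hnot with h | h
    · rw [hA] at h; exact absurd h (lt_irrefl _)
    · rw [hB] at h; exact absurd h (lt_irrefl _)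
  · rw [hA]
    have := mul_lt_mul_of_pos_left hB' hB
    linarith
  · rw [hB]
    have := mul_lt_mul_of_pos_left hA' hA
    linarith
  · have h1 := mul_lt_mul_of_pos_left hA' hA
    have h2 := mul_lt_mul_of_pos_left hB' hB
    linarith

end Pool.Agent.V11191.Span
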