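import Pool.Agent.V11191.Span.Sdet

/-!
# Piecewise linear approximation, and the final deterministic statement for the span set
-/

open Set MeasureTheory Filter Topology

namespace Pool.Agent.V11191.Span

/-- piecewise linear approximation with rational coefficients -/
lemma approx {F : ℝ → ℝ} (hF : Continuous F) {ε : ℝ} (hε : 0 < ε) :
    ∃ (n : ℕ) (c : ℕ →₀ ℚ), 0 < n ∧ ∀ x, 0 ≤ x → x ≤ 1 → |ff n c x - (F x - F 0)| ≤ ε := by
  have huc : UniformContinuousOn F (Icc 0 1) :=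
    isCompact_Icc.uniformContinuousOn_of_continuous hF.continuousOn
  rw [Metric.uniformContinuousOn_iff] at huc
  obtain ⟨δ, hδ, hu⟩ := huc (ε/3) (by positivity)
  obtain ⟨n, hn⟩ := exists_nat_gt (1/δ)
  have hn0 : (0:ℝ) < n := lt_trans (by positivity) hn
  have hnn : 0 < n := by exact_mod_cast hn0
  have hnδ : 1/(n:ℝ) < δ := by
    rw [div_lt_iff₀ hδ] at hn
    rw [div_lt_iff₀ hn0]; linarith
  set d : ℕ → ℝ := fun k => F (((k:ℝ)+1)/n) - F ((k:ℝ)/n) with hd
  have hrat : ∀ k, ∃ q : ℚ, |(q:ℝ) - d k| ≤ ε/(3*n) := by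
    intro k
    obtain ⟨q, h1, h2⟩ := exists_rat_btwn (show d k - ε/(3*n) < d k + ε/(3*n) by
      have : 0 < ε/(3*n) := by positivity
      linarith)
    exact ⟨q, abs_le.2 ⟨by linarith, by linarith⟩⟩
  choose q hq using hrat
  refine ⟨n, Finsupp.indicator (Finset.range n) (fun k _ => q k), hnn, fun x hx0 hx1 => ?_⟩
  -- split
  have e1 : ff n (Finsupp.indicator (Finset.range n) (fun k _ => q k)) x =
      ∑ k ∈ Finset.range n, (q k : ℝ) * ramp n k x := by
    unfold ff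
    refine Finset.sum_congr rfl fun k hk => ?_
    rw [Finsupp.indicator_of_mem hk]
  have e2 : F x - F 0 = ∑ k ∈ Finset.range n,
      (F (min x (((k:ℝ)+1)/n)) - F (min x ((k:ℝ)/n))) := by
    have := Finset.sum_range_sub (fun k : ℕ => F (min x ((k:ℝ)/n))) n
    simp only [Nat.cast_add, Nat.cast_one, Nat.cast_zero, zero_div] at this
    rw [this, div_self hn0.ne', min_eq_left hx1, min_eq_right hx0]
  have e3 : |∑ k ∈ Finset.range n, ((q k : ℝ) - d k) * ramp n k x| ≤ ε/3 := by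
    refine (Finset.abs_sum_le_sum_abs _ _).trans ?_
    calc ∑ k ∈ Finset.range n, |((q k : ℝ) - d k) * ramp n k x|
        ≤ ∑ k ∈ Finset.range n, ε/(3*n) := by
          refine Finset.sum_le_sum fun k _ => ?_
          rw [abs_mul, abs_of_nonneg (ramp_nonneg hnn x)]
          calc |(q k : ℝ) - d k| * ramp n k x ≤ ε/(3*n) * 1 := by
                apply mul_le_mul (hq k) (ramp_le_one hnn x) (ramp_nonneg hnn x) (by positivity)
            _ = _ := mul_one _
      _ = ε/3 := by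
          rw [Finset.sum_const, Finset.card_range, nsmul_eq_mul]
          field_simp
  have e4 : |∑ k ∈ Finset.range n, (d k * ramp n k x -
      (F (min x (((k:ℝ)+1)/n)) - F (min x ((k:ℝ)/n))))| ≤ 2 * ε / 3 := by
    -- all terms vanish except one
    set j := ⌊(n:ℝ)*x⌋₊ with hj
    have hj1 : (j:ℝ) ≤ n * x := Nat.floor_le (by positivity)
    have hj2 : (n:ℝ) * x < j + 1 := Nat.lt_floor_add_one _
    have hzero : ∀ k, k ≠ j → d k * ramp n k x -
        (F (min x (((k:ℝ)+1)/n)) - F (min x ((k:ℝ)/n))) = 0 := by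
      intro k hk
      rcases lt_or_gt_of_ne hk with h | h
      · have h1 : ((k:ℝ)+1)/n ≤ x := by
          rw [div_le_iff₀ hn0]
          have : (k:ℝ) + 1 ≤ j := by exact_mod_cast h
          linarith
        have h2 : (k:ℝ)/n ≤ x := by
          refine le_trans ?_ h1
          gcongr; linarith
        rw [ramp_right hnn h1, min_eq_right h1, min_eq_right h2]
        simp only [hd]; ring
      · have h1 : x ≤ (k:ℝ)/n := by
          rw [le_div_iff₀ hn0]
          have : (j:ℝ) + 1 ≤ k := by exact_mod_cast h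
          linarith
        have h2 : x ≤ ((k:ℝ)+1)/n := by
          refine le_trans h1 ?_
          gcongr; linarith
        rw [ramp_left hnn h1, min_eq_left h1, min_eq_left h2]
        ring
    by_cases hjn : j ∈ Finset.range n
    · rw [Finset.sum_eq_single_of_mem j hjn (fun k _ hk => hzero k hk)]
      have hjn' : (j:ℝ) + 1 ≤ n := by exact_mod_cast Finset.mem_range.1 hjn
      have h1 : (j:ℝ)/n ≤ x := by rw [div_le_iff₀ hn0]; linarith
      have h2 : x ≤ ((j:ℝ)+1)/n := by rw [le_div_iff₀ hn0]; linarith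
      rw [min_eq_right h1, min_eq_left h2]
      have hm0 : (j:ℝ)/n ∈ Icc (0:ℝ) 1 := ⟨by positivity, h1.trans hx1⟩
      have hm1 : ((j:ℝ)+1)/n ∈ Icc (0:ℝ) 1 := ⟨by positivity, (div_le_one hn0).2 hjn'⟩
      have hm : ((j:ℝ)+1)/n = (j:ℝ)/n + 1/n := by ring
      have b1 : |d j| ≤ ε/3 := by
        have := hu _ hm1 _ hm0 (by
          rw [Real.dist_eq, hm, add_sub_cancel_left, abs_of_pos (by positivity)]; exact hnδ)
        rw [Real.dist_eq] at this
        exact this.le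
      have b2 : |F x - F ((j:ℝ)/n)| ≤ ε/3 := by
        have := hu x ⟨hx0, hx1⟩ _ hm0 (by
          rw [Real.dist_eq, abs_of_nonneg (by linarith)]
          rw [hm] at h2; linarith)
        rw [Real.dist_eq] at this
        exact this.le
      have b3 : |d j * ramp n j x| ≤ ε/3 := by
        rw [abs_mul, abs_of_nonneg (ramp_nonneg hnn x)]
        calc |d j| * ramp n j x ≤ ε/3 * 1 :=
              mul_le_mul b1 (ramp_le_one hnn x) (ramp_nonneg hnn x) (by positivity)
          _ = _ := mul_one _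
      calc |d j * ramp n j x - (F x - F ((j:ℝ)/n))|
          ≤ |d j * ramp n j x| + |F x - F ((j:ℝ)/n)| := abs_sub _ _
        _ ≤ _ := by linarith
    · rw [Finset.sum_eq_zero (fun k hk => hzero k (fun h => hjn (h ▸ hk)))]
      simp only [abs_zero]; positivity
  have e5 : ff n (Finsupp.indicator (Finset.range n) (fun k _ => q k)) x - (F x - F 0) =
      (∑ k ∈ Finset.range n, ((q k : ℝ) - d k) * ramp n k x) +
      ∑ k ∈ Finset.range n, (d k * ramp n k x -
      (F (min x (((k:ℝ)+1)/n)) - F (min x ((k:ℝ)/n)))) := by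
    rw [e1, e2, ← Finset.sum_sub_distrib, ← Finset.sum_add_distrib]
    refine Finset.sum_congr rfl fun k _ => ?_
    ring
  rw [e5]
  refine (abs_add_le _ _).trans ?_
  linarith

/-- good paths -/
structure Good (w : ℝ → ℝ) : Prop where
  cont : Continuous w
  g1 : G1 w
  g1' : G1 (fun t => - w t)
  g2 : G2 w
  g2' : G2 (fun t => - w t)

lemma Good.neg {w : ℝ → ℝ} (h : Good w) : Good (fun t => - w t) :=
  ⟨h.cont.neg, h.g1', by simpa using h.g1, h.g2', by simpa using h.g2⟩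

lemma Good.ne {w : ℝ → ℝ} (h : Good w) : w 0 ≠ w 1 := by
  have := h.g1 0 0 1 1 le_rfl le_rfl one_pos le_rfl le_rfl
  simpa using this

/-- the increments of `Fn` over critical chords are bounded below -/
lemma Fn_gap {w : ℝ → ℝ} (h : Good w) {ε δ : ℝ} (hδ : 0 < δ) (hε : ε < |w 0 - w 1| / 2)
    (ha : ∀ z, 0 ≤ z → z ≤ δ → |w z - w 0| ≤ ε)
    (hb : ∀ z, 1 - δ ≤ z → z ≤ 1 → |w z - w 1| ≤ ε) {η : ℝ} (hη : 0 < η) :
    ∃ c0 : ℝ, 0 < c0 ∧ ∀ u r, η ≤ u → u ≤ r → r ≤ 1 → WPos w u → w (r - u) = w r →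
      Fn w ε δ (r - u) + c0 ≤ Fn w ε δ r := by
  have hw := h.cont
  have hFc := Fn_cont hw ε δ
  have hK : IsCompact (Ch w η ∩ {z : ℝ × ℝ | w (z.2 - z.1) = w z.2}) :=
    (Ch_compact hw η).inter_right (isClosed_eq (by fun_prop) (by fun_prop))
  rcases (Ch w η ∩ {z : ℝ × ℝ | w (z.2 - z.1) = w z.2}).eq_empty_or_nonempty with h0 | h0
  · refine ⟨1, one_pos, fun u r h1 h2 h3 h4 h5 => ?_⟩
    have : (u, r) ∈ Ch w η ∩ {z : ℝ × ℝ | w (z.2 - z.1) = w z.2} :=
      ⟨⟨h1, ⟨h2.trans h3, h4⟩, h2, h3⟩, h5⟩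
    rw [h0] at this; exact this.elim
  · obtain ⟨z, hz, hmin⟩ := hK.exists_isMinOn h0
      (f := fun z : ℝ × ℝ => Fn w ε δ z.2 - Fn w ε δ (z.2 - z.1)) (by fun_prop)
    refine ⟨Fn w ε δ z.2 - Fn w ε δ (z.2 - z.1), ?_, fun u r h1 h2 h3 h4 h5 => ?_⟩
    · obtain ⟨⟨a1, ⟨a2, a3⟩, a4, a5⟩, a6⟩ := hz
      have := Fn_lt hw h.g1 h.g2 h.g2' hδ hε ha hb (lt_of_lt_of_le hη a1) a4 a5 a3 a6
      linarith
    · have : (u, r) ∈ Ch w η ∩ {z : ℝ × ℝ | w (z.2 - z.1) = w z.2} :=
        ⟨⟨h1, ⟨h2.trans h3, h4⟩, h2, h3⟩, h5⟩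
      have h6 : Fn w ε δ z.2 - Fn w ε δ (z.2 - z.1) ≤ Fn w ε δ r - Fn w ε δ (r - u) := hmin this
      linarith

/-- the perturbation for the span set -/
lemma exists_pert {w : ℝ → ℝ} (h : Good w) :
    ∃ (n : ℕ) (c : ℕ →₀ ℚ), 0 < n ∧ ∃ η l0 : ℝ, 0 < η ∧ 0 < l0 ∧
      (∀ u, 0 < u → u ≤ 1 → WPos w u ∨ WPos (fun t => - w t) u → η ≤ u) ∧
      ∀ l, 0 < l → l < l0 → ∀ u, 0 < u → u ≤ 1 →
        (WPos w u → Pos (fun t => w t + l * ff n c t) u) ∧
        (WPos (fun t => - w t) u → Neg (fun t => w t + l * ff n c t) u) := by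
  have hw := h.cont
  obtain ⟨η1, hη1, hs1⟩ := short hw h.g2'
  obtain ⟨η2, hη2, hs2⟩ := short hw.neg h.neg.g2'
  set η := min η1 η2 with hη
  have hη0 : 0 < η := lt_min hη1 hη2
  have hd : 0 < |w 0 - w 1| := abs_pos.2 (sub_ne_zero.2 h.ne)
  set ε := |w 0 - w 1| / 3 with hε
  have hε0 : 0 < ε := by positivity
  obtain ⟨δ1, hδ1, hb1⟩ := Metric.continuousAt_iff.1 (hw.continuousAt (x := 0)) ε hε0
  obtain ⟨δ2, hδ2, hb2⟩ := Metric.continuousAt_iff.1 (hw.continuousAt (x := 1)) ε hε0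
  set δ := min δ1 δ2 / 2 with hδ
  have hmin0 : 0 < min δ1 δ2 := lt_min hδ1 hδ2
  have hδ0 : 0 < δ := by positivity
  have hle1 := min_le_left δ1 δ2
  have hle2 := min_le_right δ1 δ2
  have ha : ∀ z, 0 ≤ z → z ≤ δ → |w z - w 0| ≤ ε := by
    intro z h0 h1
    have := hb1 (x := z) (by rw [Real.dist_eq, abs_lt]; constructor <;> linarith)
    rw [Real.dist_eq] at this; exact this.le
  have hb : ∀ z, 1 - δ ≤ z → z ≤ 1 → |w z - w 1| ≤ ε := by
    intro z h0 h1
    have := hb2 (x := z) (by rw [Real.dist_eq, abs_lt]; constructor <;> linarith)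
    rw [Real.dist_eq] at this; exact this.le
  obtain ⟨c1, hc1, hg1⟩ := Fn_gap h hδ0 (by linarith) ha hb hη0
  obtain ⟨c2, hc2, hg2⟩ := Fn_gap h.neg (ε := ε) hδ0
    (by rw [show - w 0 - - w 1 = -(w 0 - w 1) by ring, abs_neg]; linarith)
    (fun z h0 h1 => by rw [show - w z - - w 0 = -(w z - w 0) by ring, abs_neg]; exact ha z h0 h1)
    (fun z h0 h1 => by rw [show - w z - - w 1 = -(w z - w 1) by ring, abs_neg]; exact hb z h0 h1)
    hη0
  obtain ⟨n, c, hn, hap⟩ := approx (Fn_cont hw ε δ) (ε := min c1 c2 / 3)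
    (by have := lt_min hc1 hc2; positivity)
  have hm1 := min_le_left c1 c2
  have hm2 := min_le_right c1 c2
  have hfc := ff_cont n c
  obtain ⟨l1, hl1, hp1⟩ := push_pos (f := ff n c) hw hfc (η := η) (by
    intro u r h1 h2 h3 h4 h5
    have a1 := abs_le.1 (hap r (by linarith) h3)
    have a2 := abs_le.1 (hap (r - u) (by linarith) (by linarith))
    have a3 := hg1 u r h1 h2 h3 h4 h5
    linarith)
  obtain ⟨l2, hl2, hp2⟩ := push_pos (f := fun t => - ff n c t) hw.neg hfc.neg (η := η) (by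
    intro u r h1 h2 h3 h4 h5
    have a1 := abs_le.1 (hap r (by linarith) h3)
    have a2 := abs_le.1 (hap (r - u) (by linarith) (by linarith))
    have a3 := hg2 u r h1 h2 h3 h4 h5
    rw [Fn_neg, Fn_neg] at a3
    linarith)
  have hηle : ∀ u, 0 < u → u ≤ 1 → WPos w u ∨ WPos (fun t => - w t) u → η ≤ u := by
    rintro u h0 h1 (h2 | h2)
    · exact (min_le_left _ _).trans (hs1 u h0 h1 h2)
    · exact (min_le_right _ _).trans (hs2 u h0 h1 h2)
  refine ⟨n, c, hn, η, min l1 l2, hη0, lt_min hl1 hl2, hηle, fun l h0 hl u hu0 hu1 => ⟨?_, ?_⟩⟩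
  · intro hp
    exact hp1 l h0 (lt_of_lt_of_le hl (min_le_left _ _)) u (hηle u hu0 hu1 (Or.inl hp)) hu1 hp
  · intro hp
    rw [neg_iff]
    have := hp2 l h0 (lt_of_lt_of_le hl (min_le_right _ _)) u (hηle u hu0 hu1 (Or.inr hp)) hu1 hp
    have e : (fun t => -(w t + l * ff n c t)) = fun t => -w t + l * -ff n c t := by
      funext t; ring
    rw [e]; exact this

/-- **The span set of a good path can be made smaller.** -/
theorem S_push {w : ℝ → ℝ} (h : Good w) :
    ∃ (n : ℕ) (c : ℕ →₀ ℚ), 0 < n ∧ ∃ l0 : ℝ, 0 < l0 ∧ ∀ l, 0 < l → l < l0 →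
      T1 (fun t => w t + l * ff n c t) < T1 w ∧ S1 (fun t => w t + l * ff n c t) < S1 w := by
  obtain ⟨n, c, hn, η, l0, hη, hl0, hηle, hpush⟩ := exists_pert h
  have hw := h.cont
  refine ⟨n, c, hn, l0, hl0, fun l h0 hl => ?_⟩
  set v : ℝ → ℝ := fun t => w t + l * ff n c t with hv
  have hfc := ff_cont n c
  have hvc : Continuous v := by simp only [hv]; fun_prop
  have hp := hpush l h0 hl
  set A := {t : ℝ | 0 < t ∧ t ∉ Sp w} with hA
  have hbdd : ∀ x : ℝ → ℝ, BddBelow {t : ℝ | 0 < t ∧ t ∉ Sp x} := fun x => ⟨0, fun t ht => ht.1.le⟩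
  have hweak : ∀ t, 0 < t → t ∉ Sp w → WPos w t ∨ WPos (fun t => - w t) t := by
    intro t h1 h2
    rcases (not_mem_Sp_iff hw h1.le).1 h2 with h3 | h3
    · exact Or.inl h3.weak
    · exact Or.inr (neg_iff.1 h3).weak
  have h1A : (1:ℝ) ∈ A := by
    refine ⟨one_pos, fun h1 => ?_⟩
    obtain ⟨r, h2, h3, h4⟩ := (mem_Sp_iff zero_le_one).1 h1
    have h5 : r = 1 := le_antisymm h3 h2
    rw [h5, sub_self] at h4
    exact h.ne h4
  set T := T1 w with hT
  have hTdef : T = sInf A := rfl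
  have hT1 : T ≤ 1 := csInf_le (hbdd w) h1A
  have hTη : η ≤ T := by
    refine le_csInf ⟨1, h1A⟩ ?_
    intro t ht
    rcases le_or_gt t 1 with h2 | h2
    · exact hηle t ht.1 h2 (hweak t ht.1 ht.2)
    · exact (hηle 1 one_pos le_rfl (hweak 1 one_pos h1A.2)).trans h2.le
  have hT0 : 0 < T := lt_of_lt_of_le hη hTη
  -- T is weakly positive or negative
  have hTw : WPos w T ∨ WPos (fun t => - w t) T := by
    have hA1 : T = sInf (A ∩ Iic 1) := by
      refine le_antisymm (csInf_le_csInf (hbdd w) ⟨1, h1A, mem_Iic.2 le_rfl⟩ inter_subset_left) ?_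
      refine le_csInf ⟨1, h1A⟩ fun t ht => ?_
      rcases le_or_gt t 1 with h2 | h2
      · exact csInf_le ((hbdd w).mono inter_subset_left) ⟨ht, h2⟩
      · exact (csInf_le ((hbdd w).mono inter_subset_left) ⟨h1A, mem_Iic.2 le_rfl⟩).trans h2.le
    have hmem : T ∈ closure (A ∩ Iic 1) := by
      rw [hA1]; exact csInf_mem_closure ⟨1, h1A, mem_Iic.2 le_rfl⟩ ((hbdd w).mono inter_subset_left)
    have hclosed : IsClosed ({u : ℝ | u ≤ 1 ∧ WPos w u} ∪ {u | u ≤ 1 ∧ WPos (fun t => - w t) u}) :=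
      (wpos_closed hw).union (wpos_closed hw.neg)
    have hsub : A ∩ Iic 1 ⊆ {u : ℝ | u ≤ 1 ∧ WPos w u} ∪ {u | u ≤ 1 ∧ WPos (fun t => - w t) u} := by
      rintro t ⟨ht1, ht2⟩
      rcases hweak t ht1.1 ht1.2 with h3 | h3
      · exact Or.inl ⟨ht2, h3⟩
      · exact Or.inr ⟨ht2, h3⟩
    rcases closure_minimal hsub hclosed hmem with h3 | h3
    · exact Or.inl h3.2
    · exact Or.inr h3.2
  have hnot : ∀ t, 0 < t → t ≤ 1 → (WPos w t ∨ WPos (fun t => - w t) t) → t ∉ Sp v := by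
    intro t h1 h2 h3
    rw [not_mem_Sp_iff hvc h1.le]
    rcases h3 with h3 | h3
    · exact Or.inl ((hp t h1 h2).1 h3)
    · exact Or.inr ((hp t h1 h2).2 h3)
  have hTv : T ∉ Sp v := hnot T hT0 hT1 hTw
  obtain ⟨ρ, hρ, hball⟩ := Metric.isOpen_iff.1 (Sp_closed hvc).isOpen_compl T hTv
  set σ := min ρ T / 2 with hσ
  have hσ0 : 0 < σ := by have := lt_min hρ hT0; positivity
  have hσρ : σ < ρ := by have := min_le_left ρ T; have := lt_min hρ hT0; linarith
  have hσT : σ < T := by have := min_le_right ρ T; have := lt_min hρ hT0; linarith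
  have hgap : ∀ t, T - σ ≤ t → t < T → t ∉ Sp v := by
    intro t h1 h2
    exact hball (by rw [Metric.mem_ball, Real.dist_eq, abs_lt]; constructor <;> linarith)
  have hin : ∀ t, 0 < t → t < T → t ∈ Sp w := by
    intro t h1 h2
    by_contra h3
    exact absurd (csInf_le (hbdd w) ⟨h1, h3⟩) (not_le.2 h2)
  constructor
  · have : T1 v ≤ T - σ := csInf_le (hbdd v) ⟨by linarith, hgap _ le_rfl (by linarith)⟩
    linarith
  · have hsub : Sp v ⊆ Sp w := by
      intro t ht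
      by_contra hcon
      have ht1 := Sp_subset v ht
      rcases ht1.1.eq_or_lt with h2 | h2
      · exact hcon ⟨0, 0, le_rfl, le_rfl, zero_le_one, rfl, by rw [← h2]; ring⟩
      · exact hnot t h2 ht1.2 (hweak t h2 hcon) ht
    have hsub2 : Sp v ∪ Ico (T - σ) T ⊆ Sp w := by
      refine union_subset hsub fun t ht => ?_
      exact hin t (by linarith [ht.1]) ht.2
    have hdis : Disjoint (Sp v) (Ico (T - σ) T) := by
      rw [Set.disjoint_left]
      intro t ht1 ht2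
      exact hgap t ht2.1 ht2.2 ht1
    have hfin : ∀ x : ℝ → ℝ, volume (Sp x) ≠ ⊤ := fun x => by
      refine ((measure_mono (Sp_subset x)).trans_lt ?_).ne
      simp
    have hle : volume (Sp v) + volume (Ico (T - σ) T) ≤ volume (Sp w) := by
      rw [← measure_union hdis measurableSet_Ico]
      exact measure_mono hsub2
    have hpos : volume (Ico (T - σ) T) ≠ 0 := by
      rw [Real.volume_Ico]; simp only [sub_sub_cancel, ne_eq, ENNReal.ofReal_eq_zero, not_le]
      exact hσ0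
    unfold S1
    refine (ENNReal.toReal_lt_toReal (hfin v) (hfin w)).2 ?_
    refine lt_of_lt_of_le ?_ hle
    exact ENNReal.lt_add_right (hfin v) hpos

end Pool.Agent.V11191.Span
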